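import Mathlib
import Pool.Agent.H388SL.DobB

/-! # Products over pairs of embeddings with the same restriction to a subfield -/

set_option autoImplicit false
set_option linter.all false

open Finset Polynomial Module NumberField

namespace Pool.Agent.U218.LD

open Pool.Agent.H388SL

variable (K : Type*) [Field K] [NumberField K] {L : Type*} [Field L] [NumberField L] [Algebra K L]

/-- restriction of an embedding -/
noncomputable def res (σ : L →ₐ[ℚ] ℂ) : K →+* ℂ := (σ : L →+* ℂ).comp (algebraMap K L)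

lemma res_apply (σ : L →ₐ[ℚ] ℂ) (x : K) : res K σ x = σ (algebraMap K L x) := rfl

open Classical in
/-- the embeddings with the same restriction -/
noncomputable def fib (σ : L →ₐ[ℚ] ℂ) : Finset (L →ₐ[ℚ] ℂ) :=
  Finset.univ.filter (fun τ => res K τ = res K σ)

lemma mem_fib {σ τ : L →ₐ[ℚ] ℂ} : τ ∈ fib K σ ↔ res K τ = res K σ := by
  classical
  simp [fib]

/-- the conjugates of `β` under the embeddings with the same restriction are distinct -/
def RInj (β : L) : Prop := ∀ σ τ : L →ₐ[ℚ] ℂ, res K σ = res K τ → σ β = τ β → σ = τ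

variable {K}

lemma minpoly_map_rel {γ : L} (hγ : RInj K γ) (σ : L →ₐ[ℚ] ℂ) :
    (minpoly K γ).map (res K σ) = ∏ τ ∈ fib K σ, (X - C (τ γ)) := by
  classical
  let _ : Algebra K ℂ := (res K σ).toAlgebra
  have hal : algebraMap K ℂ = res K σ := rfl
  have hint : IsIntegral K γ := Algebra.IsIntegral.isIntegral γ
  have hs : ((minpoly K γ).map (algebraMap K ℂ)).Splits := IsAlgClosed.splits _
  have hm : ((minpoly K γ).map (algebraMap K ℂ)).Monic := (minpoly.monic hint).map _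
  have hnd : ((minpoly K γ).map (algebraMap K ℂ)).roots.Nodup :=
    nodup_roots (show (minpoly K γ).Separable from Algebra.IsSeparable.isSeparable K γ).map
  have h1 := hs.eq_prod_roots_of_monic hm
  have h2 : ((minpoly K γ).map (algebraMap K ℂ)).roots = (fib K σ).val.map (fun τ => τ γ) := by
    rw [Multiset.Nodup.ext hnd]
    · intro z
      have h3 := Algebra.IsAlgebraic.range_eval_eq_rootSet_minpoly (F := K) (K := L) ℂ γ
      have h4 : z ∈ (minpoly K γ).rootSet ℂ ↔ z ∈ ((minpoly K γ).map (algebraMap K ℂ)).roots := by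
        rw [Polynomial.rootSet_def, Finset.mem_coe, Multiset.mem_toFinset]
      rw [← h4, ← h3, Multiset.mem_map, Set.mem_range]
      constructor
      · rintro ⟨ψ, hψ⟩
        refine ⟨RingHom.equivRatAlgHom L ℂ (ψ : L →+* ℂ), ?_, hψ⟩
        rw [Finset.mem_val, mem_fib]
        ext x
        exact ψ.commutes x
      · rintro ⟨τ, hτ, hτz⟩
        rw [Finset.mem_val, mem_fib] at hτ
        exact ⟨{ (τ : L →+* ℂ) with commutes' := fun x => RingHom.congr_fun hτ x }, hτz⟩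
    · refine Multiset.Nodup.map_on ?_ (fib K σ).nodup
      intro τ hτ τ' hτ' h
      rw [Finset.mem_val, mem_fib] at hτ hτ'
      exact hγ τ τ' (hτ.trans hτ'.symm) h
  rw [← hal, h1, h2, Multiset.map_map]
  rfl

lemma card_fib (σ : L →ₐ[ℚ] ℂ) : (fib K σ).card = finrank K L := by
  classical
  let _ : Algebra K ℂ := (res K σ).toAlgebra
  have h1 : Fintype.card (L →ₐ[K] ℂ) = finrank K L := AlgHom.card K L ℂ
  rw [← h1, ← Fintype.card_coe]
  refine Fintype.card_congr ⟨fun τ => { ((τ : L →ₐ[ℚ] ℂ) : L →+* ℂ) with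
    commutes' := fun x => RingHom.congr_fun ((mem_fib K).1 τ.2) x },
    fun ψ => ⟨RingHom.equivRatAlgHom L ℂ (ψ : L →+* ℂ), by
      rw [mem_fib]
      ext x
      exact ψ.commutes x⟩, fun τ => ?_, fun ψ => ?_⟩
  · ext x
    rfl
  · ext x
    rfl

lemma minpoly_integral {γ : L} (hi : IsIntegral ℤ γ) :
    (minpoly (𝓞 K) γ).map (algebraMap (𝓞 K) K) = minpoly K γ :=
  (minpoly.isIntegrallyClosed_eq_field_fractions' K hi.tower_top).symm

lemma map_aevalR (σ : L →ₐ[ℚ] ℂ) (P : (𝓞 K)[X]) (x : L) :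
    σ (aeval x P) = ((P.map (algebraMap (𝓞 K) K)).map (res K σ)).eval (σ x) := by
  have := Polynomial.hom_eval₂ P (algebraMap (𝓞 K) L) (σ : L →+* ℂ) x
  rw [Polynomial.aeval_def, show σ (eval₂ (algebraMap (𝓞 K) L) x P) =
    (σ : L →+* ℂ) (eval₂ (algebraMap (𝓞 K) L) x P) from rfl, this, Polynomial.map_map,
    Polynomial.eval_map]
  congr 1

lemma aeval_rel {γ : L} (hi : IsIntegral ℤ γ) (hγ : RInj K γ) (σ : L →ₐ[ℚ] ℂ) (x : L) :
    σ (aeval x (minpoly (𝓞 K) γ)) = ∏ τ ∈ fib K σ, (σ x - τ γ) := by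
  rw [map_aevalR, minpoly_integral hi, minpoly_map_rel hγ, Polynomial.eval_prod]
  simp

lemma isIntegral_aevalR {x : L} (hx : IsIntegral ℤ x) (P : (𝓞 K)[X]) :
    IsIntegral ℤ (aeval x P) := by
  rw [Polynomial.aeval_eq_sum_range]
  refine IsIntegral.sum _ fun i _ => ?_
  rw [Algebra.smul_def]
  refine IsIntegral.mul ?_ (hx.pow i)
  rw [IsScalarTower.algebraMap_apply (𝓞 K) K L]
  exact (RingOfIntegers.isIntegral_coe (P.coeff i)).algebraMap

/-- cross terms -/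
lemma one_le_cross_rel {β γ : L} (hβ : IsIntegral ℤ β) (hγ : IsIntegral ℤ γ) (hc : RInj K γ)
    (hne : ∀ σ τ : L →ₐ[ℚ] ℂ, res K σ = res K τ → σ β ≠ τ γ) :
    1 ≤ ∏ σ : L →ₐ[ℚ] ℂ, ∏ τ ∈ fib K σ, ‖σ β - τ γ‖ := by
  have e : ∀ σ : L →ₐ[ℚ] ℂ, ∏ τ ∈ fib K σ, ‖σ β - τ γ‖ = ‖σ (aeval β (minpoly (𝓞 K) γ))‖ := by
    intro σ
    rw [aeval_rel hγ hc, norm_prod]
  simp_rw [e]
  apply one_le_prod_norm (isIntegral_aevalR hβ _)
  intro h0
  obtain ⟨σ⟩ : Nonempty (L →ₐ[ℚ] ℂ) := ⟨IsAlgClosed.lift⟩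
  have h1 := aeval_rel hγ hc σ β
  rw [h0, map_zero] at h1
  obtain ⟨τ, hτ, hτ'⟩ := Finset.prod_eq_zero_iff.mp h1.symm
  exact hne σ τ ((mem_fib K).1 hτ).symm (sub_eq_zero.mp hτ')

/-- discriminant -/
lemma one_le_disc_rel [DecidableEq (L →ₐ[ℚ] ℂ)] {β : L} (hβ : IsIntegral ℤ β) (hc : RInj K β) :
    1 ≤ ∏ σ : L →ₐ[ℚ] ℂ, ∏ τ ∈ (fib K σ).erase σ, ‖σ β - τ β‖ := by
  have e : ∀ σ : L →ₐ[ℚ] ℂ, σ (aeval β (derivative (minpoly (𝓞 K) β))) =
      ∏ τ ∈ (fib K σ).erase σ, (σ β - τ β) := by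
    intro σ
    have hσ : σ ∈ fib K σ := (mem_fib K).2 rfl
    rw [map_aevalR, ← Polynomial.derivative_map, minpoly_integral hβ, ← Polynomial.derivative_map,
      minpoly_map_rel hc, Polynomial.derivative_prod_finset, Polynomial.eval_finsetSum]
    rw [Finset.sum_eq_single σ]
    · rw [Polynomial.eval_mul, Polynomial.eval_prod]
      simp
    · intro τ hτf hτ
      rw [Polynomial.eval_mul, Polynomial.eval_prod]
      rw [Finset.prod_eq_zero (i := σ)]
      · simp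
      · simp [Ne.symm hτ, hσ]
      · simp
    · intro h
      exact absurd hσ h
  have e' : ∀ σ : L →ₐ[ℚ] ℂ, ∏ τ ∈ (fib K σ).erase σ, ‖σ β - τ β‖ =
      ‖σ (aeval β (derivative (minpoly (𝓞 K) β)))‖ := by
    intro σ
    rw [e, norm_prod]
  simp_rw [e']
  apply one_le_prod_norm (isIntegral_aevalR hβ _)
  intro h0
  obtain ⟨σ⟩ : Nonempty (L →ₐ[ℚ] ℂ) := ⟨IsAlgClosed.lift⟩
  have h1 := e σ
  rw [h0, map_zero] at h1
  obtain ⟨τ, hτ, hτ2⟩ := Finset.prod_eq_zero_iff.mp h1.symm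
  exact (Finset.ne_of_mem_erase hτ) (hc _ _ ((mem_fib K).1 (Finset.mem_of_mem_erase hτ)).symm
    (sub_eq_zero.mp hτ2)).symm

end Pool.Agent.U218.LD
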