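import Mathlib
import Pool.Agent.U218.LD.Rel

/-! # Primes at which the relative degree drops -/

set_option autoImplicit false
set_option linter.all false

open Finset Polynomial Module NumberField IntermediateField

namespace Pool.Agent.U218.LD

open Pool.Agent.H388SL

variable {K : Type*} [Field K] [NumberField K] {L : Type*} [Field L] [NumberField L] [Algebra K L]

lemma RInj_of_mem {α β : L} (hc : RInj K α) (h : α ∈ adjoin K {β}) : RInj K β := by
  intro σ τ hres hστ
  refine hc σ τ hres ?_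
  clear hc
  induction h using IntermediateField.adjoin_induction with
  | mem x hx =>
    rw [Set.mem_singleton_iff] at hx
    rw [hx]; exact hστ
  | algebraMap x => exact RingHom.congr_fun hres x
  | add x y _ _ hx hy => rw [map_add, map_add, hx, hy]
  | mul x y _ _ hx hy => rw [map_mul, map_mul, hx, hy]
  | inv x _ hx => rw [map_inv₀, map_inv₀, hx]

lemma mem_of_coprime' {α : L} (h0 : α ≠ 0) (F : IntermediateField K L) {m n : ℕ}
    (hmn : Nat.Coprime m n) (hm : α ^ m ∈ F) (hn : α ^ n ∈ F) : α ∈ F := by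
  have h1 := Nat.gcd_eq_gcd_ab m n
  rw [hmn] at h1
  have h2 : α = (α ^ m) ^ (Nat.gcdA m n) * (α ^ n) ^ (Nat.gcdB m n) := by
    rw [← zpow_natCast α m, ← zpow_natCast α n, ← zpow_mul, ← zpow_mul, ← zpow_add₀ h0, ← h1]
    simp
  rw [h2]
  exact mul_mem (zpow_mem hm _) (zpow_mem hn _)

lemma two_mul_finrank_le' {E F : IntermediateField K L} (h : E < F) :
    2 * finrank K E ≤ finrank K F := by
  obtain ⟨k, hk⟩ := IntermediateField.finrank_dvd_of_le_right h.le
  have hpos : 0 < finrank K F := finrank_pos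
  have hpos' : 0 < finrank K E := finrank_pos
  have h1 : k ≠ 0 := by rintro rfl; omega
  have h2 : k ≠ 1 := by
    rintro rfl
    exact h.ne (IntermediateField.eq_of_le_of_finrank_eq h.le (by omega))
  have : 2 ≤ k := by omega
  nlinarith

lemma two_pow_bad' {α : L} (h0 : α ≠ 0) (hc : RInj K α) (m : ℕ) (B : Finset ℕ)
    (hB : ∀ p ∈ B, p.Prime) (hbad : ∀ p ∈ B, ¬ RInj K (α ^ p ^ m)) :
    2 ^ B.card * finrank K (adjoin K {α ^ (∏ p ∈ B, p ^ m)}) ≤ finrank K L := by
  classical
  induction B using Finset.induction_on with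
  | empty =>
    simp only [Finset.card_empty, pow_zero, one_mul]
    exact Nat.le_of_dvd finrank_pos ⟨_, (finrank_mul_finrank K
      (adjoin K {α ^ (∏ p ∈ (∅ : Finset ℕ), p ^ m)}) L).symm⟩
  | insert p B hp ih =>
    have ih' := ih (fun q hq => hB q (Finset.mem_insert_of_mem hq))
      (fun q hq => hbad q (Finset.mem_insert_of_mem hq))
    set P := ∏ q ∈ B, q ^ m with hP
    have hcop : Nat.Coprime P (p ^ m) := by
      rw [hP]
      apply Nat.Coprime.prod_left
      intro q hq
      apply Nat.Coprime.pow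
      rw [Nat.coprime_primes (hB q (Finset.mem_insert_of_mem hq)) (hB p (Finset.mem_insert_self _ _))]
      rintro rfl
      exact hp hq
    have hlt : adjoin K {α ^ (p ^ m * P)} < adjoin K {α ^ P} := by
      rw [lt_iff_le_not_ge]
      constructor
      · rw [adjoin_simple_le_iff, mul_comm, pow_mul]
        exact pow_mem (mem_adjoin_simple_self K _) (p ^ m)
      · intro hle
        rw [adjoin_simple_le_iff] at hle
        have h1 : adjoin K {α ^ (p ^ m * P)} ≤ adjoin K {α ^ p ^ m} := by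
          rw [adjoin_simple_le_iff, pow_mul]
          exact pow_mem (mem_adjoin_simple_self K _) P
        have h2 : α ∈ adjoin K {α ^ p ^ m} :=
          mem_of_coprime' h0 _ hcop (h1 hle) (mem_adjoin_simple_self K _)
        exact hbad p (Finset.mem_insert_self _ _) (RInj_of_mem hc h2)
    have h3 := two_mul_finrank_le' hlt
    rw [Finset.card_insert_of_notMem hp, Finset.prod_insert hp, ← hP, pow_succ]
    calc 2 ^ B.card * 2 * finrank K (adjoin K {α ^ (p ^ m * P)})
        = 2 ^ B.card * (2 * finrank K (adjoin K {α ^ (p ^ m * P)})) := by ring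
      _ ≤ 2 ^ B.card * finrank K (adjoin K {α ^ P}) := Nat.mul_le_mul_left _ h3
      _ ≤ _ := ih'

lemma card_bad' {α : L} (h0 : α ≠ 0) (hc : RInj K α) (m : ℕ) (B : Finset ℕ)
    (hB : ∀ p ∈ B, p.Prime) (hbad : ∀ p ∈ B, ¬ RInj K (α ^ p ^ m)) :
    2 ^ B.card ≤ finrank K L := by
  have h := two_pow_bad' h0 hc m B hB hbad
  have h1 : 0 < finrank K (adjoin K {α ^ (∏ p ∈ B, p ^ m)}) := finrank_pos
  calc 2 ^ B.card = 2 ^ B.card * 1 := by ring
    _ ≤ _ := Nat.mul_le_mul_left _ h1
    _ ≤ _ := h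

/-! ### heights -/

omit [NumberField K] [Algebra K L] in
lemma lam_eq_roots {β : L} (hβ : CInj β) : lam β =
    (((minpoly ℚ β).map (algebraMap ℚ ℂ)).roots.map (fun z => Real.log (max 1 ‖z‖))).sum := by
  rw [minpoly_map_eq hβ, Finset.prod_eq_multiset_prod]
  have e : (Multiset.map (fun τ : L →ₐ[ℚ] ℂ => X - C (τ β)) Finset.univ.val) =
      Multiset.map (fun a : ℂ => X - C a) (Multiset.map (fun τ : L →ₐ[ℚ] ℂ => τ β)
        Finset.univ.val) := by
    rw [Multiset.map_map]; rfl
  rw [e, Polynomial.roots_multiset_prod_X_sub_C, Multiset.map_map]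
  rfl

/-- the sum of `log⁺` over the roots of the minimal polynomial -/
noncomputable def rsum {L : Type*} [Field L] [NumberField L] (β : L) : ℝ :=
  (((minpoly ℚ β).map (algebraMap ℚ ℂ)).roots.map (fun z => Real.log (max 1 ‖z‖))).sum

lemma lam_mul (β : L) : ((minpoly ℚ β).natDegree : ℝ) * lam β = finrank ℚ L * rsum β := by
  have h1 : lam β = (finrank (adjoin ℚ {β}) L : ℝ) * lam (AdjoinSimple.gen ℚ β) := by
    rw [lam, sum_embeddings' β (fun z => Real.log (max 1 ‖z‖)), nsmul_eq_mul, lam]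
  have h2 : lam (AdjoinSimple.gen ℚ β) = rsum β := by
    have h5 : minpoly ℚ (AdjoinSimple.gen ℚ β) = minpoly ℚ β := by
      have h6 : algebraMap (adjoin ℚ {β}) L (AdjoinSimple.gen ℚ β) = β :=
        AdjoinSimple.algebraMap_gen ℚ β
      conv_rhs => rw [← h6]
      exact (minpoly.algebraMap_eq (algebraMap (adjoin ℚ {β}) L).injective _).symm
    rw [lam_eq_roots (CInj_gen β), rsum, h5]
  have h3 : finrank ℚ (adjoin ℚ {β}) * finrank (adjoin ℚ {β}) L = finrank ℚ L :=
    finrank_mul_finrank ℚ _ L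
  have h4 : finrank ℚ (adjoin ℚ {β}) = (minpoly ℚ β).natDegree :=
    adjoin.finrank (Algebra.IsIntegral.isIntegral β)
  rw [h1, h2, ← h3, h4]
  push_cast
  ring

lemma lam_eq_of_minpoly_eq {β γ : L} (h : minpoly ℚ β = minpoly ℚ γ) : lam β = lam γ := by
  have h1 := lam_mul β
  have h2 := lam_mul γ
  have h3 : rsum β = rsum γ := by rw [rsum, rsum, h]
  rw [h, h3, ← h2] at h1
  have h4 : 0 < (minpoly ℚ γ).natDegree := minpoly.natDegree_pos (Algebra.IsIntegral.isIntegral γ)
  exact mul_left_cancel₀ (by positivity) h1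

lemma conj_ne' {α : L} (hα : IsIntegral ℤ α) (h0 : α ≠ 0) (hroot : ∀ n : ℕ, 0 < n → α ^ n ≠ 1)
    {p q : ℕ} (hpq : p ≠ q) (σ τ : L →ₐ[ℚ] ℂ) : σ (α ^ p) ≠ τ (α ^ q) := by
  intro h
  have h1 : minpoly ℚ (σ (α ^ p)) = minpoly ℚ (α ^ p) := minpoly.algHom_eq σ σ.injective _
  have h2 : minpoly ℚ (τ (α ^ q)) = minpoly ℚ (α ^ q) := minpoly.algHom_eq τ τ.injective _
  have h3 := lam_eq_of_minpoly_eq (β := α ^ p) (γ := α ^ q) (by rw [← h1, h, h2])
  rw [lam_pow, lam_pow] at h3
  have h4 := lam_pos hα h0 hroot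
  have h5 : (p : ℝ) = q := mul_right_cancel₀ h4.ne' h3
  exact hpq (by exact_mod_cast h5)

end Pool.Agent.U218.LD
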