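import Mathlib
import Pool.Agent.U218.UX.Gal
import Pool.Agent.U218.UX.Tame
import Pool.Agent.U218.LD.Rel

/-! # The Frobenius congruence in Galois extensions of exponent `m` -/

set_option autoImplicit false
set_option linter.all false

open Finset Polynomial Module NumberField IsDedekindDomain

namespace Pool.Agent.U218.LD

open Pool.Agent.H388SL Pool.Agent.U218.UX

variable {K : Type*} [Field K] [NumberField K]

lemma under_eq {p : ℕ} (hp : p.Prime) (Q : Ideal (𝓞 K)) [hQ : Q.IsPrime] (h : (p : 𝓞 K) ∈ Q) :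
    Q.under ℤ = Ideal.span {(p : ℤ)} := by
  have h1 : (Ideal.span {(p : ℤ)}).IsMaximal :=
    PrincipalIdealRing.isMaximal_of_irreducible (Nat.prime_iff_prime_int.mp hp).irreducible
  refine (h1.eq_of_le ?_ ?_).symm
  · exact (inferInstance : (Q.under ℤ).IsPrime).ne_top
  · rw [Ideal.span_singleton_le_iff_mem, Ideal.under_def, Ideal.mem_comap]
    simpa using h

lemma card_quot {p : ℕ} (hp : p.Prime) (Q : Ideal (𝓞 K)) [hQ : Q.IsPrime] (h : (p : 𝓞 K) ∈ Q) :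
    Nat.card (ℤ ⧸ Q.under ℤ) = p := by
  rw [under_eq hp Q h, Nat.card_congr (Int.quotientSpanNatEquivZMod p).toEquiv, Nat.card_zmod]

variable (K) in
/-- all primes of `K` above `p` have residue degree dividing `m` and ramification index at most `m` -/
def Good (m p : ℕ) : Prop := ∀ Q : Ideal (𝓞 K), Q.IsPrime → (p : 𝓞 K) ∈ Q →
  (∀ x : 𝓞 K, x ^ p ^ m - x ∈ Q) ∧ (p : 𝓞 K) ∉ Q ^ (m + 1)

lemma intVal_p_ge {m : ℕ} {p : ℕ} (hg : Good K m p) (w : HeightOneSpectrum (𝓞 K))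
    (h : (p : 𝓞 K) ∈ w.asIdeal) : WithZero.exp (-(m : ℤ)) ≤ w.intValuation (p : 𝓞 K) := by
  have h1 := (hg w.asIdeal w.isPrime h).2
  rw [← w.intValuation_le_pow_iff_mem, not_le] at h1
  by_cases hp : (p : 𝓞 K) = 0
  · rw [hp, map_zero] at h1
    exact absurd h1 not_lt_zero
  obtain ⟨n, hn⟩ : ∃ n : ℕ, w.intValuation (p : 𝓞 K) = WithZero.exp (-(n : ℤ)) :=
    ⟨_, w.intValuation_if_neg hp⟩
  rw [hn, WithZero.exp_lt_exp] at h1
  rw [hn, WithZero.exp_le_exp]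
  push_cast at h1
  linarith

lemma pow_le {m : ℕ} {p : ℕ} (hp : p.Prime) (hg : Good K m p) : (Ideal.span {(p : 𝓞 K)}).radical ^ m ≤ Ideal.span {(p : 𝓞 K)} := by
  intro x hx
  have hp0 : (p : 𝓞 K) ≠ 0 := by exact_mod_cast hp.ne_zero
  have hp0' : algebraMap (𝓞 K) K (p : 𝓞 K) ≠ 0 := by
    rw [map_natCast]; exact_mod_cast hp.ne_zero
  have key : ∀ w : HeightOneSpectrum (𝓞 K), w.intValuation x ≤ w.intValuation (p : 𝓞 K) := by
    intro w
    by_cases h : (p : 𝓞 K) ∈ w.asIdeal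
    · refine le_trans ?_ (intVal_p_ge hg w h)
      rw [w.intValuation_le_pow_iff_mem]
      refine Ideal.pow_right_mono ?_ m hx
      exact w.isPrime.radical_le_iff.2 ((Ideal.span_singleton_le_iff_mem _).2 h)
    · have h1 : w.intValuation (p : 𝓞 K) = 1 := by
        refine le_antisymm (w.intValuation_le_one _) (not_lt.1 fun h2 => h ?_)
        exact (w.intValuation_lt_one_iff_mem _).1 h2
      rw [h1]
      exact w.intValuation_le_one _
  have h2 : algebraMap (𝓞 K) K x / algebraMap (𝓞 K) K (p : 𝓞 K) ∈ (algebraMap (𝓞 K) K).range := by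
    refine HeightOneSpectrum.mem_integers_of_valuation_le_one K _ fun w => ?_
    rw [map_div₀, w.valuation_of_algebraMap, w.valuation_of_algebraMap]
    exact div_le_one_of_le₀ (key w) zero_le
  obtain ⟨y, hy⟩ := h2
  rw [Ideal.mem_span_singleton]
  refine ⟨y, ?_⟩
  apply (IsFractionRing.injective (𝓞 K) K)
  rw [map_mul, hy]
  field_simp

/-- **Frobenius congruence** -/
theorem frob_congr {m : ℕ} {p : ℕ} (hp : p.Prime) (hg : Good K m p) (P : (𝓞 K)[X]) :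
    ∃ v w : (𝓞 K)[X], expand (𝓞 K) (p ^ m) P = P ^ p ^ m + v ∧ v ^ m = C (p : 𝓞 K) * w := by
  have : Fact p.Prime := ⟨hp⟩
  by_cases hu : IsUnit (p : 𝓞 K)
  · obtain ⟨u, hu⟩ := hu
    refine ⟨expand (𝓞 K) (p ^ m) P - P ^ p ^ m,
      C (↑u⁻¹ : 𝓞 K) * (expand (𝓞 K) (p ^ m) P - P ^ p ^ m) ^ m, by ring, ?_⟩
    rw [← mul_assoc, ← C_mul, ← hu, Units.mul_inv, C_1, one_mul]
  set J := (Ideal.span {(p : 𝓞 K)}).radical with hJ
  have hJp : (p : 𝓞 K) ∈ J := Ideal.le_radical (Ideal.mem_span_singleton_self _)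
  have hJtop : J ≠ ⊤ := by
    rw [hJ, Ne, Ideal.radical_eq_top, Ideal.span_singleton_eq_top]
    exact hu
  have hnt : Nontrivial (𝓞 K ⧸ J) := Ideal.Quotient.nontrivial_iff.2 hJtop
  have hchar : CharP (𝓞 K ⧸ J) p := by
    have h1 : ringChar (𝓞 K ⧸ J) = p := CharP.ringChar_of_prime_eq_zero hp (by
      rw [← map_natCast (Ideal.Quotient.mk J)]
      exact Ideal.Quotient.eq_zero_iff_mem.2 hJp)
    exact h1 ▸ ringChar.charP (𝓞 K ⧸ J)
  have hfrob : iterateFrobenius (𝓞 K ⧸ J) p m = RingHom.id _ := by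
    ext x
    rw [RingHom.comp_apply, RingHom.comp_apply, RingHom.id_apply, iterateFrobenius_def,
      ← map_pow, Ideal.Quotient.eq]
    rw [hJ, Ideal.radical_eq_sInf, Ideal.mem_sInf]
    rintro Q ⟨hQ1, hQ2⟩
    exact (hg Q hQ2 (hQ1 (Ideal.mem_span_singleton_self _))).1 x
  set v := expand (𝓞 K) (p ^ m) P - P ^ p ^ m with hv
  have h1 : v.map (Ideal.Quotient.mk J) = 0 := by
    have h2 := map_iterateFrobenius_expand (R := 𝓞 K ⧸ J) p (P.map (Ideal.Quotient.mk J)) m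
    rw [hfrob, Polynomial.map_id] at h2
    rw [hv, Polynomial.map_sub, Polynomial.map_pow, Polynomial.map_expand, h2, sub_self]
  have h2 : v ∈ J.map (C : 𝓞 K →+* (𝓞 K)[X]) := by
    rw [Ideal.mem_map_C_iff]
    intro n
    rw [← Ideal.Quotient.eq_zero_iff_mem, ← Polynomial.coeff_map, h1, Polynomial.coeff_zero]
  have h3 : v ^ m ∈ (Ideal.span {(p : 𝓞 K)}).map (C : 𝓞 K →+* (𝓞 K)[X]) := by
    have h4 := Ideal.pow_mem_pow h2 m
    rw [← Ideal.map_pow] at h4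
    exact Ideal.map_mono (pow_le hp hg) h4
  rw [Ideal.map_span, Set.image_singleton, Ideal.mem_span_singleton] at h3
  obtain ⟨w, hw⟩ := h3
  exact ⟨v, w, by rw [hv]; ring, hw⟩

/-- the lower bound for the product of the differences of the conjugates of `α ^ p ^ m` and `α` -/
theorem pow_le_frob_rel {L : Type*} [Field L] [NumberField L] [Algebra K L]
    {m : ℕ} (hm : 0 < m) {p : ℕ} (hp : p.Prime) (hg : Good K m p) {α : L} (hα : IsIntegral ℤ α) (hc : RInj K α)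
    (hne : ∀ σ τ : L →ₐ[ℚ] ℂ, res K σ = res K τ → σ (α ^ p ^ m) ≠ τ α) :
    (p : ℝ) ^ finrank ℚ L ≤
      (∏ σ : L →ₐ[ℚ] ℂ, ∏ τ ∈ fib K σ, ‖σ (α ^ p ^ m) - τ α‖) ^ m := by
  obtain ⟨v, w, hv, hw⟩ := frob_congr hp hg (minpoly (𝓞 K) α)
  have h1 : (aeval (α ^ p ^ m) (minpoly (𝓞 K) α)) ^ m = (p : L) * aeval α w := by
    rw [← Polynomial.expand_aeval, hv, map_add, map_pow, minpoly.aeval,
      zero_pow (pow_ne_zero _ hp.ne_zero), zero_add, ← map_pow, hw, map_mul, aeval_C, map_natCast]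
  have e : ∀ σ : L →ₐ[ℚ] ℂ, (∏ τ ∈ fib K σ, ‖σ (α ^ p ^ m) - τ α‖) ^ m =
      ‖σ ((p : L) * aeval α w)‖ := by
    intro σ
    rw [← h1, map_pow σ (aeval (α ^ p ^ m) (minpoly (𝓞 K) α)) m, aeval_rel hα hc, norm_pow,
      norm_prod]
  rw [← Finset.prod_pow]
  simp_rw [e]
  apply pow_le_prod_norm (isIntegral_aevalR hα _)
  intro h0
  obtain ⟨σ⟩ : Nonempty (L →ₐ[ℚ] ℂ) := ⟨IsAlgClosed.lift⟩
  have h2 := e σ
  rw [h0, mul_zero, map_zero, norm_zero] at h2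
  obtain ⟨τ, hτ, hτ'⟩ := Finset.prod_eq_zero_iff.mp (pow_eq_zero_iff hm.ne' |>.1 h2)
  exact hne σ τ ((mem_fib K).1 hτ).symm (sub_eq_zero.mp (norm_eq_zero.mp hτ'))

section Galois

variable [IsGalois ℚ K]

lemma pow_sub_mem {m : ℕ} (hG : ∀ g : K ≃ₐ[ℚ] K, g ^ m = 1) {p : ℕ} (hp : p.Prime)
    (Q : Ideal (𝓞 K)) [hQ : Q.IsPrime] (h : (p : 𝓞 K) ∈ Q) (x : 𝓞 K) : x ^ p ^ m - x ∈ Q := by
  have hQ0 : Q ≠ ⊥ := by
    rintro rfl
    rw [Ideal.mem_bot] at h
    exact hp.ne_zero (by exact_mod_cast h)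
  have : Finite (𝓞 K ⧸ Q) := Ideal.finiteQuotientOfFreeOfNeBot Q hQ0
  have h1 := frob ℤ ℚ K m hG Q x
  rwa [card_quot hp Q h] at h1

lemma intVal_p_ge_gal {m : ℕ} (hm : 0 < m) (hG : ∀ g : K ≃ₐ[ℚ] K, g ^ m = 1) {p : ℕ} (hp : p.Prime)
    (hpm : ¬ p ∣ m) (w : HeightOneSpectrum (𝓞 K)) (h : (p : 𝓞 K) ∈ w.asIdeal) :
    WithZero.exp (-(m : ℤ)) ≤ w.intValuation (p : 𝓞 K) := by
  have hpr := w.isPrime
  have hu := under_eq hp w.asIdeal h
  let v : HeightOneSpectrum ℤ := ⟨w.asIdeal.under ℤ, inferInstance, by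
    rw [hu]
    intro h0
    rw [Ideal.span_singleton_eq_bot] at h0
    exact hp.ne_zero (by exact_mod_cast h0)⟩
  have hl : w.asIdeal.LiesOver v.asIdeal := ⟨rfl⟩
  have hv : v.asIdeal = Ideal.span {(p : ℤ)} := hu
  have hfin : Finite (ℤ ⧸ v.asIdeal) := Ideal.finiteQuotientOfFreeOfNeBot _ v.ne_bot
  have h1 := tame (A := ℤ) (B := 𝓞 K) (k := ℚ) (E := K) m hG v w (by
    rw [hv, Ideal.mem_span_singleton]
    intro h2
    exact hpm (by exact_mod_cast h2))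
  have h2 := Nat.le_of_dvd hm h1
  have h3 := HeightOneSpectrum.intValuation_liesOver v w (p : ℤ)
  have h4 : v.intValuation (p : ℤ) = WithZero.exp (-1 : ℤ) := by
    have := v.intValuation_singleton (r := (p : ℤ)) (by exact_mod_cast hp.ne_zero) hv
    exact this
  rw [h4, map_natCast] at h3
  rw [← h3, ← WithZero.exp_nsmul, WithZero.exp_le_exp]
  have h5 : ((v.asIdeal.ramificationIdx' w.asIdeal : ℕ) : ℤ) ≤ m := by exact_mod_cast h2
  rw [nsmul_eq_mul]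
  linarith

/-- in a Galois extension of exponent `m` all primes not dividing `m` are good -/
theorem good_of_exponent {m : ℕ} (hm : 0 < m) (hG : ∀ g : K ≃ₐ[ℚ] K, g ^ m = 1) {p : ℕ}
    (hp : p.Prime) (hpm : ¬ p ∣ m) : Good K m p := by
  intro Q hQ h
  refine ⟨pow_sub_mem hG hp Q h, ?_⟩
  have hQ0 : Q ≠ ⊥ := by
    rintro rfl
    rw [Ideal.mem_bot] at h
    exact hp.ne_zero (by exact_mod_cast h)
  let w : HeightOneSpectrum (𝓞 K) := ⟨Q, hQ, hQ0⟩
  have h1 := intVal_p_ge_gal hm hG hp hpm w h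
  have h2 : (p : 𝓞 K) ∉ w.asIdeal ^ (m + 1) := by
    rw [← w.intValuation_le_pow_iff_mem, not_le]
    refine lt_of_lt_of_le ?_ h1
    rw [WithZero.exp_lt_exp]
    push_cast
    linarith
  exact h2

end Galois

end Pool.Agent.U218.LD
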