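import Mathlib
import Pool.Agent.U218.LD.Frob
import Pool.Agent.U218.LD.Bad

/-! # The main inequality -/

set_option autoImplicit false
set_option linter.all false

open Finset Polynomial Module NumberField

namespace Pool.Agent.U218.LD

open Pool.Agent.H388SL

variable {K : Type*} [Field K] [NumberField K] {L : Type*} [Field L]
  [NumberField L] [Algebra K L]

theorem rel_ineq {m : ℕ} (hm : 0 < m) {α : L}
    (hα : IsIntegral ℤ α) (h0 : α ≠ 0) (hroot : ∀ n : ℕ, 0 < n → α ^ n ≠ 1)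
    (hc : RInj K α) (P : Finset ℕ) (hP : ∀ p ∈ P, p.Prime) (hPg : ∀ p ∈ P, Good K m p)
    (hPc : ∀ p ∈ P, RInj K (α ^ p ^ m)) {A : ℝ} (hA : 0 ≤ A) {N : ℝ} (hN : 1 ≤ N) :
    2 * A / m * finrank ℚ L * ∑ p ∈ P, Real.log p ≤
      2 * finrank K L * (A + P.card) * (A + ∑ p ∈ P, (p : ℝ) ^ m) * lam α
        + finrank ℚ L * (finrank K L * (A + P.card) ^ 2 / N + (A ^ 2 + P.card) * Real.log N) := by
  classical
  set d := finrank ℚ L with hd
  set D := finrank K L with hD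
  have hd0 : 0 < d := finrank_pos
  have hD0 : 0 < D := finrank_pos
  have hcard : Fintype.card (L →ₐ[ℚ] ℂ) = d := AlgHom.card ℚ L ℂ
  have h1P : 1 ∉ P := fun h => Nat.not_prime_one (hP 1 h)
  have hm0 : m ≠ 0 := hm.ne'
  have hmR : (0 : ℝ) < m := by exact_mod_cast hm
  set Q : Finset ℕ := insert 1 P with hQ
  have hQc : ∀ p ∈ Q, RInj K (α ^ p ^ m) := by
    intro p hp
    rw [hQ, Finset.mem_insert] at hp
    rcases hp with rfl | hp
    · rw [one_pow, pow_one]; exact hc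
    · exact hPc p hp
  set x : ℕ × (L →ₐ[ℚ] ℂ) → ℝ := fun i => if i.1 = 1 then A else 1 with hx
  set z : ℕ × (L →ₐ[ℚ] ℂ) → ℂ := fun i => i.2 (α ^ i.1 ^ m) with hz
  set F : (K →+* ℂ) → Finset (L →ₐ[ℚ] ℂ) := fun φ => Finset.univ.filter (fun σ => res K σ = φ)
    with hF
  set Φ : Finset (K →+* ℂ) := Finset.univ.image (fun σ : L →ₐ[ℚ] ℂ => res K σ) with hΦ
  have hFfib : ∀ φ, ∀ σ ∈ F φ, F φ = fib K σ := by
    intro φ σ hσ
    have h1 : res K σ = φ := by simpa [hF] using hσ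
    ext τ
    rw [mem_fib, h1]
    simp [hF]
  have hsumfib : ∀ g : (L →ₐ[ℚ] ℂ) → ℝ, ∑ φ ∈ Φ, ∑ σ ∈ F φ, g σ = ∑ σ, g σ := by
    intro g
    exact Finset.sum_fiberwise_of_maps_to (fun σ _ => Finset.mem_image_of_mem _ (Finset.mem_univ σ)) g
  have hFcard : ∀ φ ∈ Φ, (F φ).card = D := by
    intro φ hφ
    rw [hΦ, Finset.mem_image] at hφ
    obtain ⟨σ, _, hσ⟩ := hφ
    have h1 : σ ∈ F φ := by simp [hF, hσ]
    rw [hFfib φ σ h1, card_fib]
  have hΦcard : (Φ.card : ℝ) * D = d := by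
    have h1 := hsumfib (fun _ => 1)
    simp only [Finset.sum_const, nsmul_eq_mul, mul_one, Finset.card_univ, hcard] at h1
    rw [← h1, Finset.sum_congr rfl (fun φ hφ => by rw [hFcard φ hφ]), Finset.sum_const,
      nsmul_eq_mul]
  have hinj : ∀ φ, ∀ i ∈ Q ×ˢ F φ, ∀ j ∈ Q ×ˢ F φ, i ≠ j → z i ≠ z j := by
    rintro φ ⟨p, σ⟩ hi ⟨q, τ⟩ hj hij
    rw [Finset.mem_product] at hi hj
    by_cases hpq : p = q
    · subst hpq
      intro h
      have h1 : res K σ = φ := by simpa [hF] using hi.2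
      have h2 : res K τ = φ := by simpa [hF] using hj.2
      have h' : σ = τ := hQc p hi.1 σ τ (h1.trans h2.symm) h
      exact hij (by rw [h'])
    · exact conj_ne' hα h0 hroot (fun h => hpq (Nat.pow_left_injective hm0 h)) σ τ
  have ht0 : 0 ≤ 1 - 1 / N := by
    rw [sub_nonneg, div_le_one (by linarith)]; exact hN
  have ht1 : 1 - 1 / N < 1 := by
    have : 0 < 1 / N := by positivity
    linarith
  have hE0 : ∀ φ, _ := fun φ => energy (Q ×ˢ F φ) x (by
    intro i _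
    rw [hx]; dsimp only; split_ifs
    · exact hA
    · exact zero_le_one) z (hinj φ) ht0 ht1
  -- lower bound of the left side
  set G : ℕ × (L →ₐ[ℚ] ℂ) → ℕ × (L →ₐ[ℚ] ℂ) → ℝ := fun i j =>
    if i = j then 0 else x i * x j * Real.log ‖z i - z j‖ with hGdef
  set E : ℕ → ℕ → ℝ := fun p q => ∑ σ : L →ₐ[ℚ] ℂ, ∑ τ ∈ fib K σ, G (p, σ) (q, τ) with hEdef
  have hLHS : ∑ φ ∈ Φ, ∑ i ∈ Q ×ˢ F φ, ∑ j ∈ Q ×ˢ F φ, G i j = ∑ p ∈ Q, ∑ q ∈ Q, E p q := by
    calc ∑ φ ∈ Φ, ∑ i ∈ Q ×ˢ F φ, ∑ j ∈ Q ×ˢ F φ, G i j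
        = ∑ φ ∈ Φ, ∑ p ∈ Q, ∑ σ ∈ F φ, ∑ q ∈ Q, ∑ τ ∈ fib K σ, G (p, σ) (q, τ) := by
          refine Finset.sum_congr rfl fun φ _ => ?_
          rw [Finset.sum_product]
          refine Finset.sum_congr rfl fun p _ => ?_
          refine Finset.sum_congr rfl fun σ hσ => ?_
          rw [Finset.sum_product, hFfib φ σ hσ]
      _ = ∑ p ∈ Q, ∑ φ ∈ Φ, ∑ σ ∈ F φ, ∑ q ∈ Q, ∑ τ ∈ fib K σ, G (p, σ) (q, τ) :=
          Finset.sum_comm
      _ = ∑ p ∈ Q, ∑ σ, ∑ q ∈ Q, ∑ τ ∈ fib K σ, G (p, σ) (q, τ) := by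
          refine Finset.sum_congr rfl fun p _ => ?_
          exact hsumfib _
      _ = ∑ p ∈ Q, ∑ q ∈ Q, E p q := by
          refine Finset.sum_congr rfl fun p _ => ?_
          exact Finset.sum_comm
  have hEnn : ∀ p ∈ Q, ∀ q ∈ Q, 0 ≤ E p q := by
    intro p hp q hq
    have hxp : 0 ≤ (if p = 1 then A else 1 : ℝ) := by split_ifs; exacts [hA, zero_le_one]
    have hxq : 0 ≤ (if q = 1 then A else 1 : ℝ) := by split_ifs; exacts [hA, zero_le_one]
    by_cases hpq : p = q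
    · subst hpq
      have h1 := one_le_disc_rel (hα.pow (p ^ m)) (hQc p hp)
      have h2 := Real.log_nonneg h1
      have hne : ∀ σ : L →ₐ[ℚ] ℂ, ∀ τ ∈ (fib K σ).erase σ, σ (α ^ p ^ m) ≠ τ (α ^ p ^ m) := by
        intro σ τ hτ h
        exact (Finset.ne_of_mem_erase hτ) (hQc p hp _ _
          ((mem_fib K).1 (Finset.mem_of_mem_erase hτ)).symm h).symm
      rw [Real.log_prod] at h2
      · have h3 : E p p = ((if p = 1 then A else 1 : ℝ) * (if p = 1 then A else 1 : ℝ)) *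
            ∑ σ : L →ₐ[ℚ] ℂ, Real.log (∏ τ ∈ (fib K σ).erase σ,
              ‖σ (α ^ p ^ m) - τ (α ^ p ^ m)‖) := by
          rw [hEdef]; dsimp only
          rw [Finset.mul_sum]
          refine Finset.sum_congr rfl fun σ _ => ?_
          have hσ : σ ∈ fib K σ := (mem_fib K).2 rfl
          rw [Real.log_prod, Finset.mul_sum, ← Finset.add_sum_erase _ _ hσ, hGdef]
          · dsimp only
            rw [if_pos rfl, zero_add]
            refine Finset.sum_congr rfl fun τ hτ => ?_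
            rw [if_neg]
            intro h
            exact (Finset.ne_of_mem_erase hτ) (Prod.ext_iff.mp h).2.symm
          · intro τ hτ h
            exact hne σ τ hτ (sub_eq_zero.mp (norm_eq_zero.mp h))
        rw [h3]
        exact mul_nonneg (mul_nonneg hxp hxp) h2
      · intro σ _ h
        obtain ⟨τ, hτ, h⟩ := Finset.prod_eq_zero_iff.mp h
        exact hne σ τ hτ (sub_eq_zero.mp (norm_eq_zero.mp h))
    · have hne : ∀ σ τ : L →ₐ[ℚ] ℂ, σ (α ^ p ^ m) ≠ τ (α ^ q ^ m) := fun σ τ =>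
        conj_ne' hα h0 hroot (fun h => hpq (Nat.pow_left_injective hm0 h)) σ τ
      have h1 := one_le_cross_rel (hα.pow (p ^ m)) (hα.pow (q ^ m)) (hQc q hq)
        (fun σ τ _ => hne σ τ)
      have h2 := Real.log_nonneg h1
      rw [Real.log_prod] at h2
      · have h3 : E p q = ((if p = 1 then A else 1 : ℝ) * (if q = 1 then A else 1 : ℝ)) *
            ∑ σ : L →ₐ[ℚ] ℂ, Real.log (∏ τ ∈ fib K σ, ‖σ (α ^ p ^ m) - τ (α ^ q ^ m)‖) := by
          rw [hEdef]; dsimp only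
          rw [Finset.mul_sum]
          refine Finset.sum_congr rfl fun σ _ => ?_
          rw [Real.log_prod, Finset.mul_sum]
          · refine Finset.sum_congr rfl fun τ hτ => ?_
            rw [hGdef]; dsimp only
            rw [if_neg]
            intro h
            exact hpq (Prod.ext_iff.mp h).1
          · intro τ hτ h
            exact hne σ τ (sub_eq_zero.mp (norm_eq_zero.mp h))
        rw [h3]
        exact mul_nonneg (mul_nonneg hxp hxq) h2
      · intro σ _ h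
        obtain ⟨τ, hτ, h⟩ := Finset.prod_eq_zero_iff.mp h
        exact hne σ τ (sub_eq_zero.mp (norm_eq_zero.mp h))
  have hE1 : ∀ p ∈ P, A * (d / m * Real.log p) ≤ E p 1 ∧ A * (d / m * Real.log p) ≤ E 1 p := by
    intro p hp
    have hpp := hP p hp
    have hp1 : p ≠ 1 := hpp.ne_one
    have hne : ∀ σ τ : L →ₐ[ℚ] ℂ, σ (α ^ p ^ m) ≠ τ α := by
      intro σ τ
      have := conj_ne' hα h0 hroot (p := p ^ m) (q := 1)
        (fun h => hp1 (by simpa [hm0] using h)) σ τ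
      rwa [pow_one] at this
    have h1 := pow_le_frob_rel hm hpp (hPg p hp) hα hc (fun σ τ _ => hne σ τ)
    have hp0 : (0:ℝ) < p := by exact_mod_cast hpp.pos
    have h2 := Real.log_le_log (by positivity) h1
    rw [Real.log_pow, Real.log_pow, Real.log_prod] at h2
    · have h2' : d / m * Real.log p ≤ ∑ σ : L →ₐ[ℚ] ℂ,
          Real.log (∏ τ ∈ fib K σ, ‖σ (α ^ p ^ m) - τ α‖) := by
        rw [div_mul_eq_mul_div, div_le_iff₀ hmR]
        linarith
      have h3 : E p 1 = A * ∑ σ : L →ₐ[ℚ] ℂ,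
          Real.log (∏ τ ∈ fib K σ, ‖σ (α ^ p ^ m) - τ α‖) := by
        rw [hEdef]; dsimp only
        rw [Finset.mul_sum]
        refine Finset.sum_congr rfl fun σ _ => ?_
        rw [Real.log_prod, Finset.mul_sum]
        · refine Finset.sum_congr rfl fun τ hτ => ?_
          rw [hGdef]; dsimp only
          rw [if_neg, hx, hz]
          · dsimp only
            rw [if_neg hp1, if_pos rfl, one_mul, one_pow, pow_one]
          · intro h
            exact hp1 (Prod.ext_iff.mp h).1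
        · intro τ hτ h
          exact hne σ τ (sub_eq_zero.mp (norm_eq_zero.mp h))
      have h4 : E 1 p = E p 1 := by
        rw [hEdef]; dsimp only
        have e : ∀ (f : (L →ₐ[ℚ] ℂ) → (L →ₐ[ℚ] ℂ) → ℝ), ∑ σ, ∑ τ ∈ fib K σ, f σ τ =
            ∑ σ, ∑ τ, if res K τ = res K σ then f σ τ else 0 := by
          intro f
          refine Finset.sum_congr rfl fun σ _ => ?_
          rw [← Finset.sum_filter]
          rfl
        rw [e, e, Finset.sum_comm]
        refine Finset.sum_congr rfl fun σ _ => ?_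
        refine Finset.sum_congr rfl fun τ _ => ?_
        by_cases hστ : res K τ = res K σ
        · rw [if_pos hστ, if_pos hστ.symm, hGdef]
          dsimp only
          rw [if_neg, if_neg]
          · rw [norm_sub_rev]; ring
          · intro h
            exact hp1 (Prod.ext_iff.mp h).1
          · intro h
            exact hp1 (Prod.ext_iff.mp h).1.symm
        · rw [if_neg hστ, if_neg (fun h => hστ h.symm)]
      rw [h4, h3]
      exact ⟨mul_le_mul_of_nonneg_left h2' hA, mul_le_mul_of_nonneg_left h2' hA⟩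
    · intro σ _ h
      obtain ⟨τ, hτ, h⟩ := Finset.prod_eq_zero_iff.mp h
      exact hne σ τ (sub_eq_zero.mp (norm_eq_zero.mp h))
  have hlow : 2 * A / m * d * ∑ p ∈ P, Real.log p ≤ ∑ p ∈ Q, ∑ q ∈ Q, E p q := by
    have e1 : ∑ p ∈ Q, ∑ q ∈ Q, E p q = (E 1 1 + ∑ q ∈ P, E 1 q) + ∑ p ∈ P, (E p 1 + ∑ q ∈ P, E p q) := by
      rw [hQ, Finset.sum_insert h1P, Finset.sum_insert h1P]
      congr 1
      refine Finset.sum_congr rfl fun p _ => ?_
      rw [Finset.sum_insert h1P]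
    have m1 : (1:ℕ) ∈ Q := Finset.mem_insert_self _ _
    have mP : ∀ p ∈ P, p ∈ Q := fun p hp => Finset.mem_insert_of_mem hp
    have i1 : 0 ≤ E 1 1 := hEnn 1 m1 1 m1
    have i2 : ∑ p ∈ P, A * (d / m * Real.log p) ≤ ∑ q ∈ P, E 1 q :=
      Finset.sum_le_sum fun p hp => (hE1 p hp).2
    have i3 : ∑ p ∈ P, A * (d / m * Real.log p) ≤ ∑ p ∈ P, (E p 1 + ∑ q ∈ P, E p q) := by
      refine Finset.sum_le_sum fun p hp => ?_
      have := (hE1 p hp).1
      have h2 : 0 ≤ ∑ q ∈ P, E p q := Finset.sum_nonneg fun q hq => hEnn p (mP p hp) q (mP q hq)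
      linarith
    have e2 : ∑ p ∈ P, A * (d / m * Real.log p) = A / m * d * ∑ p ∈ P, Real.log p := by
      rw [Finset.mul_sum]
      refine Finset.sum_congr rfl fun p _ => ?_
      ring
    rw [e2] at i2 i3
    rw [e1]
    have e3 : 2 * A / m * d * ∑ p ∈ P, Real.log p = 2 * (A / m * d * ∑ p ∈ P, Real.log p) := by
      ring
    rw [e3]
    linarith
  -- right side
  have r1 : ∀ φ ∈ Φ, ∑ i ∈ Q ×ˢ F φ, x i = D * (A + P.card) := by
    intro φ hφ
    rw [Finset.sum_product, hQ, Finset.sum_insert h1P]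
    have : ∀ p ∈ P, ∑ σ ∈ F φ, x (p, σ) = D := by
      intro p hp
      simp [hx, (hP p hp).ne_one, hFcard φ hφ]
    rw [Finset.sum_congr rfl this, Finset.sum_const, nsmul_eq_mul]
    have h1 : ∑ σ ∈ F φ, x (1, σ) = D * A := by
      simp [hx, hFcard φ hφ]
    rw [h1]
    ring
  have r2 : ∀ φ ∈ Φ, ∑ i ∈ Q ×ˢ F φ, x i ^ 2 = D * (A ^ 2 + P.card) := by
    intro φ hφ
    rw [Finset.sum_product, hQ, Finset.sum_insert h1P]
    have : ∀ p ∈ P, ∑ σ ∈ F φ, x (p, σ) ^ 2 = D := by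
      intro p hp
      simp [hx, (hP p hp).ne_one, hFcard φ hφ]
    rw [Finset.sum_congr rfl this, Finset.sum_const, nsmul_eq_mul]
    have h1 : ∑ σ ∈ F φ, x (1, σ) ^ 2 = D * A ^ 2 := by
      simp [hx, hFcard φ hφ]
    rw [h1]
    ring
  have r3 : ∀ φ, ∑ i ∈ Q ×ˢ F φ, x i * Real.log (max 1 ‖z i‖) =
      (A + ∑ p ∈ P, (p : ℝ) ^ m) * ∑ σ ∈ F φ, Real.log (max 1 ‖σ α‖) := by
    intro φ
    rw [Finset.sum_product, hQ, Finset.sum_insert h1P]
    have : ∀ p ∈ P, ∑ σ ∈ F φ, x (p, σ) * Real.log (max 1 ‖z (p, σ)‖) =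
        (p : ℝ) ^ m * ∑ σ ∈ F φ, Real.log (max 1 ‖σ α‖) := by
      intro p hp
      rw [Finset.mul_sum]
      refine Finset.sum_congr rfl fun σ _ => ?_
      rw [hx, hz]; dsimp only
      rw [if_neg (hP p hp).ne_one, one_mul, map_pow, log_max_pow]
      push_cast
      ring
    rw [Finset.sum_congr rfl this, ← Finset.sum_mul]
    have h1 : ∑ σ ∈ F φ, x (1, σ) * Real.log (max 1 ‖z (1, σ)‖) =
        A * ∑ σ ∈ F φ, Real.log (max 1 ‖σ α‖) := by
      rw [Finset.mul_sum]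
      refine Finset.sum_congr rfl fun σ _ => ?_
      simp [hx, hz]
    rw [h1]; ring
  have hN0 : 0 < N := by linarith
  have e1 : 1 / (1 - (1 - 1 / N)) = N := by
    field_simp; ring
  -- bound for log (2 / (1 + t))
  have e2 : Real.log (2 / (1 + (1 - 1 / N))) ≤ 1 / N := by
    have h1 : 1 + (1 - 1 / N) = (2 * N - 1) / N := by field_simp; ring
    have h2 : 2 / (1 + (1 - 1 / N)) = 1 + 1 / (2 * N - 1) := by
      rw [h1]
      have : 2 * N - 1 ≠ 0 := by nlinarith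
      field_simp; ring
    rw [h2]
    have h3 : 0 < 1 / (2 * N - 1) := by apply div_pos one_pos; nlinarith
    have h4 := Real.log_le_sub_one_of_pos (show 0 < 1 + 1 / (2 * N - 1) by linarith)
    have h5 : 1 / (2 * N - 1) ≤ 1 / N := by
      apply one_div_le_one_div_of_le hN0; linarith
    linarith
  have hE : ∀ φ ∈ Φ, ∑ i ∈ Q ×ˢ F φ, ∑ j ∈ Q ×ˢ F φ, G i j ≤
      2 * D * (A + P.card) * (A + ∑ p ∈ P, (p : ℝ) ^ m) * ∑ σ ∈ F φ, Real.log (max 1 ‖σ α‖) +
        D * (D * (A + P.card) ^ 2 / N + (A ^ 2 + P.card) * Real.log N) := by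
    intro φ hφ
    have h := hE0 φ
    rw [r1 φ hφ, r2 φ hφ, r3 φ, e1] at h
    have h6 : 0 ≤ (1 - 1 / N) * ‖∑ i ∈ Q ×ˢ F φ, (x i : ℂ) * Pool.Agent.H388SL.refl (z i)‖ ^ 2 := by positivity
    have h7 : ((D : ℝ) * (A + P.card)) ^ 2 * Real.log (2 / (1 + (1 - 1 / N))) ≤
        ((D : ℝ) * (A + P.card)) ^ 2 * (1 / N) := mul_le_mul_of_nonneg_left e2 (by positivity)
    have e3 : 2 * D * (A + P.card) * (A + ∑ p ∈ P, (p : ℝ) ^ m) *
        ∑ σ ∈ F φ, Real.log (max 1 ‖σ α‖) +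
        D * (D * (A + P.card) ^ 2 / N + (A ^ 2 + P.card) * Real.log N) =
        2 * ((D : ℝ) * (A + P.card)) * ((A + ∑ p ∈ P, (p : ℝ) ^ m) *
          ∑ σ ∈ F φ, Real.log (max 1 ‖σ α‖)) +
          ((D : ℝ) * (A + P.card)) ^ 2 * (1 / N) + (D * (A ^ 2 + P.card)) * Real.log N := by
      ring
    rw [e3]
    have h8 : ∑ i ∈ Q ×ˢ F φ, ∑ j ∈ Q ×ˢ F φ, G i j = ∑ i ∈ Q ×ˢ F φ, ∑ j ∈ Q ×ˢ F φ,
      (if i = j then 0 else x i * x j * Real.log ‖z i - z j‖) := rfl
    rw [h8]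
    linarith
  have hsum := Finset.sum_le_sum hE
  rw [hLHS, Finset.sum_add_distrib, ← Finset.mul_sum, hsumfib, Finset.sum_const, nsmul_eq_mul,
    ← mul_assoc (Φ.card : ℝ), hΦcard] at hsum
  exact hlow.trans hsum

end Pool.Agent.U218.LD
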