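import Mathlib
import Pool.Agent.H388SL.DobC
import Pool.Agent.U218.LD.Ineq

/-! # The choice of the parameters -/

set_option autoImplicit false
set_option linter.all false

open Finset Polynomial Module NumberField

namespace Pool.Agent.U218.LD

open Pool.Agent.H388SL

/-- the real-variable part -/
lemma real_final' {m : ℕ} (hm : 1 ≤ m) {C u v Y s S Q D h : ℝ} (hC : C = 1536 * (m : ℝ) ^ 2)
    (hu : 1 ≤ u) (hv : 1 ≤ v) (hY1 : C * v ^ 2 * u ≤ Y) (hY2 : Y ≤ 2 * C * v ^ 2 * u)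
    (hs0 : 0 ≤ s) (hs : s ≤ 6 * C * v ^ 2) (hsY : s ≤ Y) (hS : Y / 4 ≤ S) (hQ0 : 0 ≤ Q)
    (hQ : Q ≤ s * Y ^ m)
    (hD : 1 ≤ D) (hh : 0 ≤ h) (hlog : Real.log (D * (2 * Y) ^ 2) ≤ 2 * (v * u))
    (hmain : 2 * (96 * m * v) / m * S ≤ 2 * D * (96 * m * v + s) * (96 * m * v + Q) * h +
      (D * (96 * m * v + s) ^ 2 / (D * (2 * Y) ^ 2) +
        ((96 * m * v) ^ 2 + s) * Real.log (D * (2 * Y) ^ 2))) :
    1 / (5 * C * (2 * C) ^ m) * (u ^ (m + 2) / (v * u) ^ (2 * m + 1)) ≤ D * h := by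
  have hmR : (1 : ℝ) ≤ m := by exact_mod_cast hm
  have hC1 : 1536 ≤ C := by rw [hC]; nlinarith
  have hC0 : 0 < C := by linarith
  have hv2 : 1 ≤ v ^ 2 := by nlinarith
  have hY0 : 1 ≤ Y := by
    have : 1 ≤ C * v ^ 2 * u := by
      have h1 : 1 ≤ C * v ^ 2 := by nlinarith
      nlinarith
    linarith
  have hYm : 1 ≤ Y ^ m := one_le_pow₀ hY0
  -- the weight
  have ha : 96 * m * v ≤ C * v ^ 2 := by
    have h1 : 96 * (m : ℝ) ≤ C := by rw [hC]; nlinarith
    have h2 : 96 * (m : ℝ) * v ≤ C * v := mul_le_mul_of_nonneg_right h1 (by linarith)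
    have h3 : C * v ≤ C * v ^ 2 := by
      apply mul_le_mul_of_nonneg_left _ hC0.le; nlinarith
    linarith
  have ha0 : 0 ≤ 96 * (m : ℝ) * v := by positivity
  have haY : 96 * m * v ≤ Y := by
    have : C * v ^ 2 * 1 ≤ C * v ^ 2 * u := mul_le_mul_of_nonneg_left hu (by positivity)
    linarith
  -- left side
  have t0 : 48 * C * v ^ 2 * (v * u) ≤ 2 * (96 * m * v) / m * S := by
    have e : 2 * (96 * m * v) / m * S = 192 * v * S := by
      field_simp
      ring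
    rw [e]
    have h1 : C * v ^ 2 * u / 4 ≤ S := by linarith
    have h2 := mul_le_mul_of_nonneg_left h1 (by linarith : 0 ≤ 192 * v)
    have e2 : 192 * v * (C * v ^ 2 * u / 4) = 48 * C * v ^ 2 * (v * u) := by ring
    linarith
  have hW : 1 ≤ v * u := by nlinarith
  have hCv : 1 ≤ C * v ^ 2 * (v * u) := by
    have h1 : 1 ≤ C * v ^ 2 := by nlinarith
    nlinarith
  have t2 : D * (96 * m * v + s) ^ 2 / (D * (2 * Y) ^ 2) ≤ 1 := by
    rw [div_le_one (by positivity)]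
    have h1 : (96 * m * v + s) ^ 2 ≤ (2 * Y) ^ 2 := by
      apply pow_le_pow_left₀ (by linarith); linarith
    exact mul_le_mul_of_nonneg_left h1 (by linarith)
  have hlog0 : 0 ≤ Real.log (D * (2 * Y) ^ 2) := by
    apply Real.log_nonneg
    have : (1:ℝ) ≤ (2 * Y) ^ 2 := by nlinarith
    nlinarith
  have t4 : ((96 * m * v) ^ 2 + s) * Real.log (D * (2 * Y) ^ 2) ≤ 24 * C * v ^ 2 * (v * u) := by
    have h1 : (96 * m * v) ^ 2 + s ≤ 12 * C * v ^ 2 := by
      have e : (96 * m * v) ^ 2 = 6 * C * v ^ 2 := by rw [hC]; ring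
      linarith
    calc ((96 * m * v) ^ 2 + s) * Real.log (D * (2 * Y) ^ 2)
        ≤ (12 * C * v ^ 2) * (2 * (v * u)) := mul_le_mul h1 hlog hlog0 (by positivity)
      _ = 24 * C * v ^ 2 * (v * u) := by ring
  have t5 : 23 * C * v ^ 2 * (v * u) ≤ 2 * D * (96 * m * v + s) * (96 * m * v + Q) * h := by
    linarith
  have t6 : 96 * m * v + s ≤ 7 * C * v ^ 2 := by linarith
  have hYm2 : Y ^ m ≤ (2 * C * v ^ 2 * u) ^ m := pow_le_pow_left₀ (by linarith) hY2 m
  have t7 : 96 * m * v + Q ≤ 7 * C * v ^ 2 * (2 * C * v ^ 2 * u) ^ m := by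
    have h1 : s * Y ^ m ≤ 6 * C * v ^ 2 * Y ^ m := mul_le_mul_of_nonneg_right hs (by linarith)
    have h2 : C * v ^ 2 * 1 ≤ C * v ^ 2 * Y ^ m := mul_le_mul_of_nonneg_left hYm (by positivity)
    have h3 : 7 * C * v ^ 2 * Y ^ m ≤ 7 * C * v ^ 2 * (2 * C * v ^ 2 * u) ^ m :=
      mul_le_mul_of_nonneg_left hYm2 (by positivity)
    linarith
  have t8 : (96 * m * v + s) * (96 * m * v + Q) ≤
      (7 * C * v ^ 2) * (7 * C * v ^ 2 * (2 * C * v ^ 2 * u) ^ m) :=
    mul_le_mul t6 t7 (by linarith) (by positivity)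
  have t9 : 23 * C * v ^ 2 * (v * u) ≤
      98 * C ^ 2 * v ^ 4 * (2 * C * v ^ 2 * u) ^ m * (D * h) := by
    have h1 : (2 * (D * h)) * ((96 * m * v + s) * (96 * m * v + Q)) ≤ (2 * (D * h)) *
        ((7 * C * v ^ 2) * (7 * C * v ^ 2 * (2 * C * v ^ 2 * u) ^ m)) :=
      mul_le_mul_of_nonneg_left t8 (by positivity)
    have e1 : (2 * (D * h)) * ((96 * m * v + s) * (96 * m * v + Q)) =
        2 * D * (96 * m * v + s) * (96 * m * v + Q) * h := by ring
    have e2 : (2 * (D * h)) * ((7 * C * v ^ 2) * (7 * C * v ^ 2 * (2 * C * v ^ 2 * u) ^ m)) =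
        98 * C ^ 2 * v ^ 4 * (2 * C * v ^ 2 * u) ^ m * (D * h) := by ring
    rw [e1, e2] at h1
    exact t5.trans h1
  -- conclusion
  have hv0 : 0 < v := by linarith
  have hu0 : 0 < u := by linarith
  have e3 : 1 / (5 * C * (2 * C) ^ m) * (u ^ (m + 2) / (v * u) ^ (2 * m + 1)) =
      u ^ (m + 2) / (5 * C * (2 * C) ^ m * (v * u) ^ (2 * m + 1)) := by
    field_simp
  rw [e3, div_le_iff₀ (by positivity)]
  have key : u ^ (m + 2) * (20 * C * v ^ 2 * (v * u)) ≤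
      D * h * (5 * C * (2 * C) ^ m * (v * u) ^ (2 * m + 1)) * (20 * C * v ^ 2 * (v * u)) := by
    have h1 : u ^ (m + 2) * (20 * C * v ^ 2 * (v * u)) ≤ u ^ (m + 2) *
        (98 * C ^ 2 * v ^ 4 * (2 * C * v ^ 2 * u) ^ m * (D * h)) := by
      apply mul_le_mul_of_nonneg_left _ (by positivity)
      have : 20 * C * v ^ 2 * (v * u) ≤ 23 * C * v ^ 2 * (v * u) := by
        have : 0 ≤ C * v ^ 2 * (v * u) := by positivity
        linarith
      linarith
    have e4 : u ^ (m + 2) * (98 * C ^ 2 * v ^ 4 * (2 * C * v ^ 2 * u) ^ m * (D * h)) =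
        98 * (C ^ 2 * (2 * C) ^ m * v ^ (2 * m + 4) * u ^ (2 * m + 2) * (D * h)) := by
      rw [mul_pow, mul_pow, ← pow_mul]
      ring
    have e5 : D * h * (5 * C * (2 * C) ^ m * (v * u) ^ (2 * m + 1)) * (20 * C * v ^ 2 * (v * u)) =
        100 * (C ^ 2 * (2 * C) ^ m * v ^ (2 * m + 4) * u ^ (2 * m + 2) * (D * h)) := by
      rw [mul_pow v u]
      ring
    rw [e4] at h1
    rw [e5]
    have h2 : 0 ≤ C ^ 2 * (2 * C) ^ m * v ^ (2 * m + 4) * u ^ (2 * m + 2) * (D * h) := by positivity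
    linarith
  exact le_of_mul_le_mul_right key (by positivity)

lemma ev (Kc M : ℝ) : ∃ B0 : ℝ, M ≤ B0 ∧ 1 ≤ B0 ∧ ∀ B : ℝ, B0 ≤ B → 1 ≤ Real.log B ∧
    Kc * (Real.log B) ^ 2 ≤ B := by
  have h1 := (Real.isLittleO_pow_log_id_atTop (n := 2)).bound
    (show (0:ℝ) < 1 / (|Kc| + 1) by positivity)
  have h2 : ∀ᶠ B : ℝ in Filter.atTop, 1 ≤ Real.log B :=
    Real.tendsto_log_atTop.eventually (Filter.eventually_ge_atTop 1)
  obtain ⟨B0, hB0⟩ := Filter.eventually_atTop.mp (h1.and h2)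
  refine ⟨max B0 (max M 1), (le_max_left _ _).trans (le_max_right _ _),
    (le_max_right _ _).trans (le_max_right _ _), ?_⟩
  intro B hB
  obtain ⟨h3, h4⟩ := hB0 B ((le_max_left _ _).trans hB)
  refine ⟨h4, ?_⟩
  have hB1 : 0 ≤ B := by
    have : (1:ℝ) ≤ B := ((le_max_right _ _).trans (le_max_right _ _)).trans hB
    linarith
  rw [id_eq, Real.norm_of_nonneg (by positivity), Real.norm_of_nonneg hB1] at h3
  have h6 : Kc * Real.log B ^ 2 ≤ (|Kc| + 1) * Real.log B ^ 2 := by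
    apply mul_le_mul_of_nonneg_right _ (by positivity)
    have := le_abs_self Kc
    linarith
  have h7 : (|Kc| + 1) * Real.log B ^ 2 ≤ (|Kc| + 1) * (1 / (|Kc| + 1) * B) :=
    mul_le_mul_of_nonneg_left h3 (by positivity)
  have h8 : (|Kc| + 1) * (1 / (|Kc| + 1) * B) = B := by
    have : |Kc| + 1 ≠ 0 := by positivity
    field_simp
  linarith

/-- the prime numbers in `(√Y, Y]`, up to a set of at most `B / log 2` bad ones -/
lemma primes_set {Y0 : ℕ} (hY : ∀ n : ℕ, Y0 ≤ n → 1 + 4 * Real.log (2 * n) ≤ Real.sqrt n / 8)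
    (Y : ℕ) (hYY : Y0 ≤ Y) (hY1 : 10000 ≤ Y) (bad : ℕ → Prop) {B : ℝ} (hB0 : 0 ≤ B)
    (hbad : ∀ T : Finset ℕ, (∀ p ∈ T, p.Prime ∧ bad p) → (T.card : ℝ) * Real.log 2 ≤ B)
    (hBY : 16 * B * Real.log Y ≤ Y) :
    ∃ P : Finset ℕ, (∀ p ∈ P, p.Prime ∧ ¬ bad p ∧ Y < p ^ 2 ∧ p ≤ Y) ∧
      (Y : ℝ) / 4 ≤ ∑ p ∈ P, Real.log p ∧ (P.card : ℝ) * Real.log Y ≤ 3 * Y := by
  classical
  have hYR : (10000 : ℝ) ≤ Y := by exact_mod_cast hY1
  set r := Real.sqrt Y with hr
  have hr2 : r ^ 2 = Y := Real.sq_sqrt (Nat.cast_nonneg Y)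
  have hr0 : 0 ≤ r := Real.sqrt_nonneg _
  have hr100 : 100 ≤ r := by
    rw [hr]
    apply Real.le_sqrt_of_sq_le
    norm_num
    exact hY1
  set T : Finset ℕ := (Finset.Ioc 0 Y).filter Nat.Prime with hT
  set T1 := T.filter (fun p => Y < p ^ 2) with hT1
  set T2 := T.filter (fun p => ¬ Y < p ^ 2) with hT2
  set P := T1.filter (fun p => ¬ bad p) with hP
  set Bd := T1.filter (fun p => bad p) with hBd
  have hTp : ∀ p ∈ T, p.Prime ∧ p ≤ Y := by
    intro p hp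
    rw [hT, Finset.mem_filter, Finset.mem_Ioc] at hp
    exact ⟨hp.2, hp.1.2⟩
  have hth : Chebyshev.theta Y = ∑ p ∈ T, Real.log p := by
    rw [Chebyshev.theta, Nat.floor_natCast]
  have hth2 : ∑ p ∈ T2, Real.log p ≤ Chebyshev.theta r := by
    rw [Chebyshev.theta]
    apply Finset.sum_le_sum_of_subset_of_nonneg
    · intro p hp
      rw [hT2, Finset.mem_filter] at hp
      have h1 := hTp p hp.1
      rw [Finset.mem_filter, Finset.mem_Ioc]
      refine ⟨⟨h1.1.pos, ?_⟩, h1.1⟩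
      apply Nat.le_floor
      apply Real.le_sqrt_of_sq_le
      have h2 : p ^ 2 ≤ Y := not_lt.mp hp.2
      exact_mod_cast h2
    · intro p hp _
      rw [Finset.mem_filter] at hp
      exact Real.log_nonneg (by exact_mod_cast hp.2.one_lt.le)
  have hlog4 : Real.log 4 ≤ 1.3863 := by
    have : Real.log 4 = 2 * Real.log 2 := by
      rw [show (4:ℝ) = 2 ^ 2 by norm_num, Real.log_pow]; norm_num
    rw [this]
    have := Real.log_two_lt_d9
    linarith
  have hthr : Chebyshev.theta r ≤ 1.3863 * r := by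
    refine (Chebyshev.theta_le_log4_mul_x hr0).trans ?_
    exact mul_le_mul_of_nonneg_right hlog4 hr0
  have hthY : Chebyshev.theta Y ≤ 1.3863 * Y := by
    refine (Chebyshev.theta_le_log4_mul_x (by positivity)).trans ?_
    exact mul_le_mul_of_nonneg_right hlog4 (by positivity)
  have hsplit : ∑ p ∈ T, Real.log p = ∑ p ∈ T1, Real.log p + ∑ p ∈ T2, Real.log p :=
    (Finset.sum_filter_add_sum_filter_not T _ _).symm
  have hsplit1 : ∑ p ∈ T1, Real.log p = ∑ p ∈ Bd, Real.log p + ∑ p ∈ P, Real.log p :=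
    (Finset.sum_filter_add_sum_filter_not T1 _ _).symm
  have hlogY0 : 0 ≤ Real.log Y := Real.log_nonneg (by linarith)
  have hT1T : ∀ p ∈ T1, p ∈ T := fun p hp => (Finset.mem_filter.mp hp).1
  have hBsum : ∑ p ∈ Bd, Real.log p ≤ Bd.card * Real.log Y := by
    rw [← nsmul_eq_mul]
    apply Finset.sum_le_card_nsmul
    intro p hp
    have h1 := hTp p (hT1T p (Finset.mem_filter.mp hp).1)
    apply Real.log_le_log
    · exact_mod_cast h1.1.pos
    · exact_mod_cast h1.2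
  have hBcard : (Bd.card : ℝ) * Real.log 2 ≤ B := hbad Bd (fun p hp =>
    ⟨(hTp p (hT1T p (Finset.mem_filter.mp hp).1)).1, (Finset.mem_filter.mp hp).2⟩)
  have hlog2 := Real.log_two_gt_d9
  have hBcard2 : (Bd.card : ℝ) ≤ 2 * B := by
    have : (Bd.card : ℝ) * (1/2) ≤ Bd.card * Real.log 2 := by
      apply mul_le_mul_of_nonneg_left _ (Nat.cast_nonneg _); linarith
    linarith
  have hBs2 : ∑ p ∈ Bd, Real.log p ≤ Y / 8 := by
    have h1 : (Bd.card : ℝ) * Real.log Y ≤ 2 * B * Real.log Y :=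
      mul_le_mul_of_nonneg_right hBcard2 hlogY0
    linarith
  have hhalf := theta_half hY Y hYY (by omega)
  have hPsum : (Y:ℝ) / 4 ≤ ∑ p ∈ P, Real.log p := by
    rw [hth, hsplit, hsplit1] at hhalf
    have h1 : 1.3863 * r ≤ Y / 8 := by rw [← hr2]; nlinarith
    linarith
  refine ⟨P, ?_, hPsum, ?_⟩
  · intro p hp
    rw [hP, Finset.mem_filter, hT1, Finset.mem_filter] at hp
    have h1 := hTp p hp.1.1
    exact ⟨h1.1, hp.2, hp.1.2, h1.2⟩
  · have h1 : (P.card : ℝ) * (Real.log Y / 2) ≤ ∑ p ∈ P, Real.log p := by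
      rw [← nsmul_eq_mul]
      apply Finset.card_nsmul_le_sum
      intro p hp
      rw [hP, Finset.mem_filter, hT1, Finset.mem_filter] at hp
      have h2 : (Y : ℝ) ≤ (p : ℝ) ^ 2 := by exact_mod_cast hp.1.2.le
      have h3 := Real.log_le_log (by linarith) h2
      rw [Real.log_pow] at h3
      push_cast at h3
      linarith
    have h2 : ∑ p ∈ P, Real.log p ≤ ∑ p ∈ T, Real.log p := by
      apply Finset.sum_le_sum_of_subset_of_nonneg
      · exact (Finset.filter_subset _ _).trans (Finset.filter_subset _ _)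
      · intro p hp _
        exact Real.log_nonneg (by exact_mod_cast (hTp p hp).1.one_lt.le)
    rw [hth] at hthY
    linarith

end Pool.Agent.U218.LD
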