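import Mathlib
import Pool.Agent.U218.LD.Final

/-! # The relative Dobrowolski inequality in number fields -/

set_option autoImplicit false
set_option linter.all false

universe u v

open Finset Polynomial Module NumberField

namespace Pool.Agent.U218.LD

open Pool.Agent.H388SL

/-- the relative Dobrowolski inequality over Galois extensions of exponent `m`, uniform in `m` -/
theorem dob_rel : ∃ C0 : ℝ, 7680 ≤ C0 ∧ ∀ (m : ℕ), 0 < m →
    ∀ (K : Type u) [Field K] [NumberField K] (L : Type v) [Field L] [NumberField L]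
      [Algebra K L], ∀ α : L, IsIntegral ℤ α → α ≠ 0 →
      (∀ n : ℕ, 0 < n → α ^ n ≠ 1) → RInj K α →
      ∀ B : ℝ, C0 + m ^ 2 + Real.log (finrank K L) ≤ B →
      (∀ T : Finset ℕ, (∀ p ∈ T, p.Prime ∧ (p : ℝ) ≤ C0 * m ^ 2 * B ^ 2 / Real.log B ∧
        ¬ Good K m p) → (T.card : ℝ) ≤ B) →
      Real.log B ^ (m + 2) / ((C0 * m ^ 2) ^ (m + 1) * B ^ (2 * m + 1)) ≤
        finrank K L * (lam α / finrank ℚ L) := by
  obtain ⟨Y0, hY01, hY0⟩ := exists_Y0
  obtain ⟨B0, hB0M, hB01, hB0⟩ := ev (16 * (Real.log 6144 + 4)) (max (max Y0 10000) 0)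
  have hB07680 : 7680 ≤ B0 := by
    have : (10000 : ℝ) ≤ B0 := ((le_max_right _ _).trans (le_max_left _ _)).trans hB0M
    linarith
  refine ⟨B0, hB07680, ?_⟩
  intro m hm K _ _ L _ _ _ α hα h0 hroot hc B hB hexc
  have hmR : (1 : ℝ) ≤ m := by exact_mod_cast hm
  set C : ℝ := 1536 * (m : ℝ) ^ 2 with hC
  have hC1 : 1536 ≤ C := by rw [hC]; nlinarith
  have hC0 : 0 < C := by linarith
  have hlC : 0 ≤ Real.log (4 * C) := Real.log_nonneg (by linarith)
  set D : ℕ := finrank K L with hDdef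
  have hKL : finrank K L ≤ D := le_rfl
  have hD1 : 1 ≤ D := finrank_pos
  have hD1R : (1 : ℝ) ≤ D := by exact_mod_cast hD1
  have hDlog0 : 0 ≤ Real.log D := Real.log_nonneg hD1R
  have hm20 : (0 : ℝ) ≤ (m : ℝ) ^ 2 := by positivity
  have hDlog : Real.log D ≤ B := by linarith
  have hBB0 : B0 ≤ B := by linarith
  have hmB : (m : ℝ) ^ 2 ≤ B := by linarith
  obtain ⟨hu1, hKu⟩ := hB0 B hBB0
  set U := Real.log B with hU
  have hB1 : 1 ≤ B := hB01.trans hBB0
  have hUB : U ≤ B := by
    have := Real.log_le_sub_one_of_pos (show 0 < B by linarith)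
    linarith
  have hU0 : 0 < U := by linarith
  set V := B / U with hV
  have hV1 : 1 ≤ V := by rw [hV, le_div_iff₀ hU0]; linarith
  have hVU : V * U = B := by rw [hV]; field_simp
  have hCVU : 1 ≤ C * V ^ 2 * U := by
    have h1 : 1 ≤ V ^ 2 := by nlinarith
    have h2 : 1 ≤ C * V ^ 2 := by nlinarith
    nlinarith
  set Y : ℕ := ⌈C * V ^ 2 * U⌉₊ with hYdef
  have hY1 : C * V ^ 2 * U ≤ Y := Nat.le_ceil _
  have hY2 : (Y : ℝ) ≤ 2 * C * V ^ 2 * U := by
    have h1 : (Y : ℝ) < C * V ^ 2 * U + 1 := Nat.ceil_lt_add_one (by positivity)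
    have e : 2 * C * V ^ 2 * U = C * V ^ 2 * U + C * V ^ 2 * U := by ring
    rw [e]
    linarith
  have hBY : B ≤ Y := by
    have h1 : B ≤ C * V ^ 2 * U := by
      have e : C * V ^ 2 * U = C * V * B := by rw [← hVU]; ring
      rw [e]
      have : 1 ≤ C * V := by nlinarith
      nlinarith
    linarith
  have hYR1 : (1 : ℝ) ≤ Y := hB1.trans hBY
  have hMY : max (max (Y0 : ℝ) 10000) 0 ≤ Y := (hB0M.trans hBB0).trans hBY
  have hY0Y : Y0 ≤ Y := by
    have : (Y0 : ℝ) ≤ Y := ((le_max_left _ _).trans (le_max_left _ _)).trans hMY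
    exact_mod_cast this
  have h10000 : 10000 ≤ Y := by
    have : (10000 : ℝ) ≤ Y := ((le_max_right _ _).trans (le_max_left _ _)).trans hMY
    exact_mod_cast this
  have hmY : m ^ 2 ≤ Y := by
    have : (m : ℝ) ^ 2 ≤ Y := hmB.trans hBY
    exact_mod_cast this
  -- logarithms
  have hCB : C * V ^ 2 * U * U = C * B ^ 2 := by rw [← hVU]; ring
  have hY4 : 2 * (Y : ℝ) ≤ 4 * C * B ^ 2 := by
    have h1 : C * V ^ 2 * U ≤ C * B ^ 2 := by
      rw [← hCB]
      nlinarith
    linarith
  have hl6144 : 0 ≤ Real.log 6144 := Real.log_nonneg (by norm_num)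
  have hlog2Y : Real.log (2 * Y) ≤ (Real.log 6144 + 4) * U := by
    have h1 : Real.log (2 * Y) ≤ Real.log (6144 * B ^ 3) := by
      apply Real.log_le_log (by positivity)
      have e : 4 * C * B ^ 2 = 6144 * (m : ℝ) ^ 2 * B ^ 2 := by rw [hC]; ring
      have h1 : 6144 * (m : ℝ) ^ 2 * B ^ 2 ≤ 6144 * B * B ^ 2 := by gcongr
      have e2 : 6144 * B * B ^ 2 = 6144 * B ^ 3 := by ring
      linarith
    rw [Real.log_mul (show (6144 : ℝ) ≠ 0 by norm_num) (by positivity), Real.log_pow] at h1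
    push_cast at h1
    have h2 : Real.log 6144 ≤ Real.log 6144 * U := by nlinarith
    have h3 : (Real.log 6144 + 4) * U = Real.log 6144 * U + 4 * U := by ring
    rw [h3]
    linarith
  have hlog2Y0 : 0 ≤ Real.log (2 * Y) := Real.log_nonneg (by linarith)
  have hlogYle : Real.log Y ≤ Real.log (2 * Y) := Real.log_le_log (by linarith) (by linarith)
  have h16 : 16 * Real.log (2 * Y) * U ≤ B := by
    have h1 : 16 * Real.log (2 * Y) * U ≤ 16 * ((Real.log 6144 + 4) * U) * U := by
      have := mul_le_mul_of_nonneg_right hlog2Y (by linarith : 0 ≤ 16 * U)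
      linarith
    have e : 16 * ((Real.log 6144 + 4) * U) * U = 16 * (Real.log 6144 + 4) * U ^ 2 := by ring
    rw [e] at h1
    exact h1.trans hKu
  have h2log : 2 * Real.log (2 * Y) ≤ B := by nlinarith
  -- the primes
  have hYX : (Y : ℝ) ≤ B0 * m ^ 2 * B ^ 2 / U := by
    rw [le_div_iff₀ hU0]
    have h1 : (Y : ℝ) * U ≤ 2 * C * V ^ 2 * U * U := mul_le_mul_of_nonneg_right hY2 hU0.le
    have e : 2 * C * V ^ 2 * U * U = 3072 * ((m : ℝ) ^ 2 * B ^ 2) := by rw [hC, ← hVU]; ring
    have e2 : B0 * m ^ 2 * B ^ 2 = B0 * ((m : ℝ) ^ 2 * B ^ 2) := by ring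
    rw [e] at h1
    rw [e2]
    refine h1.trans ?_
    apply mul_le_mul_of_nonneg_right (by linarith) (by positivity)
  obtain ⟨P, hP, hPS, hPc⟩ := primes_set hY0 Y hY0Y h10000
    (fun p => p ≤ Y ∧ (¬ RInj K (α ^ p ^ m) ∨ ¬ Good K m p)) (B := 2 * B) (by linarith) (by
      classical
      intro T hT
      have h1 := card_bad' h0 hc m (T.filter fun p => ¬ RInj K (α ^ p ^ m))
        (fun p hp => (hT p (Finset.mem_filter.mp hp).1).1) (fun p hp => (Finset.mem_filter.mp hp).2)
      have h2 : ((2:ℝ) ^ (T.filter fun p => ¬ RInj K (α ^ p ^ m)).card) ≤ D := by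
        exact_mod_cast h1.trans hKL
      have h3 := Real.log_le_log (by positivity) h2
      rw [Real.log_pow] at h3
      have h4 := hexc (T.filter fun p => ¬ Good K m p) (fun p hp => by
        have h5 := hT p (Finset.mem_filter.mp hp).1
        refine ⟨h5.1, ?_, (Finset.mem_filter.mp hp).2⟩
        exact le_trans (by exact_mod_cast h5.2.1) hYX)
      have h6 : T.card ≤ (T.filter fun p => ¬ RInj K (α ^ p ^ m)).card +
          (T.filter fun p => ¬ Good K m p).card := by
        refine (Finset.card_le_card ?_).trans (Finset.card_union_le _ _)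
        intro p hp
        rw [Finset.mem_union, Finset.mem_filter, Finset.mem_filter]
        rcases (hT p hp).2.2 with h7 | h7
        · exact Or.inl ⟨hp, h7⟩
        · exact Or.inr ⟨hp, h7⟩
      have h7 : (T.card : ℝ) ≤ (T.filter fun p => ¬ RInj K (α ^ p ^ m)).card +
          (T.filter fun p => ¬ Good K m p).card := by exact_mod_cast h6
      have h8 := Real.log_two_lt_d9
      have h9 := Real.log_two_gt_d9
      nlinarith) (by
      have h1 : 16 * (2 * B) * Real.log Y ≤ 2 * B * (16 * Real.log (2 * Y)) := by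
        have := mul_le_mul_of_nonneg_left hlogYle (by linarith : 0 ≤ 32 * B)
        linarith
      have h2 : (16 * Real.log (2 * Y)) * U ≤ B := h16
      have h3 : 16 * Real.log (2 * Y) ≤ V := by rw [hV, le_div_iff₀ hU0]; linarith
      have h4 : 2 * B * (16 * Real.log (2 * Y)) ≤ 2 * B * V :=
        mul_le_mul_of_nonneg_left h3 (by linarith)
      have h5 : 2 * B * V ≤ C * V ^ 2 * U := by
        have e : C * V ^ 2 * U = C * (B * V) := by rw [← hVU]; ring
        rw [e]
        have : 0 ≤ B * V := by positivity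
        nlinarith
      linarith)
  have hPs : (P.card : ℝ) ≤ 6 * C * V ^ 2 := by
    have hlogY : U ≤ Real.log Y := Real.log_le_log (by linarith) hBY
    have h1 : (P.card : ℝ) * U ≤ P.card * Real.log Y :=
      mul_le_mul_of_nonneg_left hlogY (Nat.cast_nonneg _)
    have h2 : (P.card : ℝ) * U ≤ (6 * C * V ^ 2) * U := by
      have e : (6 * C * V ^ 2) * U = 3 * (2 * C * V ^ 2 * U) := by ring
      rw [e]
      linarith
    exact le_of_mul_le_mul_right h2 hU0
  have hPY : (P.card : ℝ) ≤ Y := by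
    have h1 : P.card ≤ (Finset.Ioc 0 Y).card := by
      apply Finset.card_le_card
      intro p hp
      rw [Finset.mem_Ioc]
      exact ⟨(hP p hp).1.pos, (hP p hp).2.2.2⟩
    rw [Nat.card_Ioc] at h1
    exact_mod_cast (by omega : P.card ≤ Y)
  have hQ : ∑ p ∈ P, (p : ℝ) ^ m ≤ P.card * (Y : ℝ) ^ m := by
    rw [← nsmul_eq_mul]
    apply Finset.sum_le_card_nsmul
    intro p hp
    have : (p : ℝ) ≤ Y := by exact_mod_cast (hP p hp).2.2.2
    exact pow_le_pow_left₀ (Nat.cast_nonneg _) this m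
  have hQ0 : 0 ≤ ∑ p ∈ P, (p : ℝ) ^ m := Finset.sum_nonneg fun _ _ => by positivity
  have hlogN : Real.log (D * (2 * Y) ^ 2) ≤ 2 * (V * U) := by
    rw [Real.log_mul (by positivity) (by positivity), Real.log_pow, hVU]
    push_cast
    linarith
  have hN1 : (1:ℝ) ≤ D * (2 * Y) ^ 2 := by
    have : (1:ℝ) ≤ (2 * Y) ^ 2 := by nlinarith
    nlinarith
  have hlogN0 := Real.log_nonneg hN1
  have hlam : 0 ≤ lam α := lam_nonneg α
  have hd : (0 : ℝ) < finrank ℚ L := by
    have : 0 < finrank ℚ L := finrank_pos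
    exact_mod_cast this
  have hPgood : ∀ p ∈ P, RInj K (α ^ p ^ m) ∧ Good K m p := by
    intro p hp
    have h1 := (hP p hp).2.1
    have h2 := (hP p hp).2.2.2
    push Not at h1
    exact h1 h2
  have hmain := rel_ineq hm hα h0 hroot hc P (fun p hp => (hP p hp).1)
    (fun p hp => (hPgood p hp).2) (fun p hp => (hPgood p hp).1) (A := 96 * m * V)
    (by positivity) hN1
  have hKLR : (finrank K L : ℝ) ≤ D := by exact_mod_cast hKL
  set S := ∑ p ∈ P, Real.log p with hS
  set Q := ∑ p ∈ P, (p : ℝ) ^ m with hQdef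
  have hmain2 : 2 * (96 * m * V) / m * S ≤
      2 * D * (96 * m * V + P.card) * (96 * m * V + Q) * (lam α / finrank ℚ L) +
      (D * (96 * m * V + P.card) ^ 2 / (D * (2 * Y) ^ 2) +
        ((96 * m * V) ^ 2 + P.card) * Real.log (D * (2 * Y) ^ 2)) := by
    have h1 : 2 * finrank K L * (96 * m * V + P.card) * (96 * m * V + Q) * lam α ≤
        2 * D * (96 * m * V + P.card) * (96 * m * V + Q) * lam α := by
      gcongr
    have h2 : (finrank K L : ℝ) * (96 * m * V + P.card) ^ 2 / (D * (2 * Y) ^ 2) ≤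
        D * (96 * m * V + P.card) ^ 2 / (D * (2 * Y) ^ 2) := by
      gcongr
    have h3 : (finrank ℚ L : ℝ) * (finrank K L * (96 * m * V + P.card) ^ 2 / (D * (2 * Y) ^ 2) +
        ((96 * m * V) ^ 2 + P.card) * Real.log (D * (2 * Y) ^ 2)) ≤
        (finrank ℚ L : ℝ) * (D * (96 * m * V + P.card) ^ 2 / (D * (2 * Y) ^ 2) +
        ((96 * m * V) ^ 2 + P.card) * Real.log (D * (2 * Y) ^ 2)) :=
      mul_le_mul_of_nonneg_left (by linarith) hd.le
    have h4 := hmain.trans (add_le_add h1 h3)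
    have h5 : 2 * D * (96 * m * V + P.card) * (96 * m * V + Q) * lam α = finrank ℚ L *
        (2 * D * (96 * m * V + P.card) * (96 * m * V + Q) * (lam α / finrank ℚ L)) := by
      field_simp
    have h6 : 2 * (96 * m * V) / m * finrank ℚ L * S = finrank ℚ L *
        (2 * (96 * m * V) / m * S) := by ring
    rw [h5, h6, ← mul_add] at h4
    exact le_of_mul_le_mul_left h4 hd
  have := real_final' hm hC hu1 hV1 hY1 hY2 (Nat.cast_nonneg _) hPs hPY hPS hQ0 hQ hD1R
    (div_nonneg hlam hd.le) hlogN hmain2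
  rw [hVU] at this
  refine le_trans ?_ this
  have h1 : 5 * C * (2 * C) ^ m ≤ (B0 * m ^ 2) ^ (m + 1) := by
    have h2 : 5 * C ≤ B0 * m ^ 2 := by
      rw [hC]
      nlinarith
    have h3 : 2 * C ≤ B0 * m ^ 2 := by linarith
    have h4 : (2 * C) ^ m ≤ (B0 * m ^ 2) ^ m := pow_le_pow_left₀ (by positivity) h3 m
    calc 5 * C * (2 * C) ^ m ≤ (B0 * m ^ 2) * (B0 * m ^ 2) ^ m :=
          mul_le_mul h2 h4 (by positivity) (by linarith)
      _ = (B0 * m ^ 2) ^ (m + 1) := by rw [pow_succ]; ring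
  have h5 : 0 < 5 * C * (2 * C) ^ m := by positivity
  have hB00 : 0 < B := by linarith
  rw [one_div, ← div_eq_inv_mul, div_div]
  apply div_le_div_of_nonneg_left (by positivity) (by positivity)
  rw [mul_comm (B ^ (2 * m + 1))]
  exact mul_le_mul_of_nonneg_right h1 (by positivity)

end Pool.Agent.U218.LD
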