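import Mathlib
import Pool.Agent.U218.LD.Main

/-! # The relative Dobrowolski inequality for polynomials -/

set_option autoImplicit false
set_option linter.all false

universe u v

open Finset Polynomial Module NumberField IntermediateField

namespace Pool.Agent.U218.LD

open Pool.Agent.H388SL

lemma RInj_of_top {K : Type*} [Field K] [NumberField K] {L : Type*} [Field L] [NumberField L]
    [Algebra K L] {α : L} (h : adjoin K {α} = ⊤) : RInj K α := by
  intro σ τ hres hστ
  ext x
  have hx : x ∈ adjoin K {α} := by rw [h]; trivial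
  induction hx using IntermediateField.adjoin_induction with
  | mem x hx =>
    rw [Set.mem_singleton_iff] at hx
    rw [hx]; exact hστ
  | algebraMap x => exact RingHom.congr_fun hres x
  | add x y _ _ hx hy => rw [map_add, map_add, hx, hy]
  | mul x y _ _ hx hy => rw [map_mul, map_mul, hx, hy]
  | inv x _ hx => rw [map_inv₀, map_inv₀, hx]

lemma exists_root_field (K : Type u) [Field K] [NumberField K] (P : K[X]) (hP : Irreducible P) :
    ∃ (L : Type u) (_ : Field L) (_ : NumberField L) (_ : Algebra K L) (α : L),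
      aeval α P = 0 ∧ finrank K L = P.natDegree ∧ adjoin K {α} = ⊤ := by
  have : Fact (Irreducible P) := ⟨hP⟩
  have h0 : CharZero (AdjoinRoot P) := charZero_of_injective_algebraMap (algebraMap K _).injective
  have hfin : FiniteDimensional K (AdjoinRoot P) := (AdjoinRoot.powerBasis hP.ne_zero).finite
  have hfin2 : FiniteDimensional ℚ (AdjoinRoot P) := FiniteDimensional.trans ℚ K (AdjoinRoot P)
  refine ⟨AdjoinRoot P, inferInstance, { to_charZero := h0, to_finiteDimensional := hfin2 },
    inferInstance, AdjoinRoot.root P, ?_, ?_, ?_⟩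
  · rw [AdjoinRoot.aeval_eq, AdjoinRoot.mk_self]
  · rw [(AdjoinRoot.powerBasis hP.ne_zero).finrank, AdjoinRoot.powerBasis_dim]
  · rw [← top_le_iff]
    intro x _
    have h1 : x ∈ Algebra.adjoin K {AdjoinRoot.root P} := by
      rw [AdjoinRoot.adjoinRoot_eq_top]; trivial
    exact IntermediateField.algebra_adjoin_le_adjoin K _ h1

/-- the sum of `log⁺` over the roots is the logarithm of the Mahler measure -/
lemma rsum_eq {L : Type*} [Field L] [NumberField L] {α : L} {f : ℤ[X]} (hf : Irreducible f)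
    (hm : f.Monic) (h0 : aeval α f = 0) :
    rsum α = Real.log (f.map (Int.castRingHom ℂ)).mahlerMeasure ∧
      (minpoly ℚ α).natDegree = f.natDegree := by
  have hi : IsIntegral ℤ α := ⟨f, hm, by rw [← Polynomial.aeval_def]; exact h0⟩
  have hmin : minpoly ℤ α = f :=
    eq_of_monic_of_associated (minpoly.monic hi) hm
      ((minpoly.irreducible hi).associated_of_dvd hf (minpoly.isIntegrallyClosed_dvd hi h0))
  have hQ : minpoly ℚ α = f.map (algebraMap ℤ ℚ) := by
    rw [minpoly.isIntegrallyClosed_eq_field_fractions' ℚ hi, hmin]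
  constructor
  · rw [rsum, hQ, Polynomial.map_map]
    have e : (algebraMap ℚ ℂ).comp (algebraMap ℤ ℚ) = Int.castRingHom ℂ := RingHom.ext_int _ _
    rw [e, ← logMahlerMeasure_eq_log_MahlerMeasure,
      logMahlerMeasure_eq_log_leadingCoeff_add_sum_log_roots, (hm.map _).leadingCoeff, norm_one,
      Real.log_one, zero_add]
    congr 1
    refine Multiset.map_congr rfl fun z _ => ?_
    rw [Real.posLog_eq_log_max_one (norm_nonneg _)]
  · rw [hQ]
    exact natDegree_map_eq_of_injective (algebraMap ℤ ℚ).injective_int f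

/-- the monic case, for a number field -/
theorem monic_local : ∃ C0 : ℝ, 7680 ≤ C0 ∧ ∀ (m : ℕ), 0 < m →
    ∀ (K : Type u) [Field K] [NumberField K],
    ∀ f : ℤ[X], Irreducible f → f.Monic → 1 < (f.map (Int.castRingHom ℂ)).mahlerMeasure →
    ∀ g : K[X], g ∣ f.map (Int.castRingHom K) → 0 < g.natDegree →
    ∀ B : ℝ, C0 + m ^ 2 + Real.log g.natDegree ≤ B →
      (∀ T : Finset ℕ, (∀ p ∈ T, p.Prime ∧ (p : ℝ) ≤ C0 * m ^ 2 * B ^ 2 / Real.log B ∧
        ¬ Good K m p) → (T.card : ℝ) ≤ B) →
      f.natDegree / g.natDegree *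
        (Real.log B ^ (m + 2) / ((C0 * m ^ 2) ^ (m + 1) * B ^ (2 * m + 1))) ≤
        Real.log (f.map (Int.castRingHom ℂ)).mahlerMeasure := by
  obtain ⟨C0, hC0, hmain⟩ := dob_rel.{u, u}
  refine ⟨C0, hC0, ?_⟩
  intro m hm K _ hnf f hf hfm hM g hgf0 hg B hB hexc
  classical
  have hg00 : g ≠ 0 := by
    rintro rfl
    simp at hg
  obtain ⟨P, hP, hPg⟩ := Polynomial.exists_irreducible_of_natDegree_pos (f := g) hg
  have hPdeg : P.natDegree ≤ g.natDegree := natDegree_le_of_dvd hPg hg00
  have hPdeg0 : 0 < P.natDegree := hP.natDegree_pos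
  obtain ⟨L, hL1, hL2, hL3, α, hα1, hα2, hα3⟩ := exists_root_field K P hP
  have hαf : aeval α f = 0 := by
    obtain ⟨Q, hQ⟩ := hPg.trans hgf0
    have h1 := congrArg (aeval α) hQ
    rw [map_mul, hα1, zero_mul] at h1
    rw [← h1, Polynomial.aeval_def, Polynomial.aeval_def, Polynomial.eval₂_map]
    congr 1
    exact RingHom.ext_int _ _
  have hi : IsIntegral ℤ α := ⟨f, hfm, by rw [← Polynomial.aeval_def]; exact hαf⟩
  obtain ⟨hr1, hr2⟩ := rsum_eq hf hfm hαf
  have hlogM : 0 < Real.log (f.map (Int.castRingHom ℂ)).mahlerMeasure := Real.log_pos hM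
  have hlm := lam_mul α
  rw [hr1, hr2] at hlm
  have hn0 : 0 < f.natDegree := by
    rw [← hr2]; exact minpoly.natDegree_pos (Algebra.IsIntegral.isIntegral α)
  have hn0' : (0 : ℝ) < f.natDegree := by exact_mod_cast hn0
  have hd0 : 0 < finrank ℚ L := finrank_pos
  have hd0' : (0 : ℝ) < finrank ℚ L := by exact_mod_cast hd0
  have hlam : 0 < lam α := by
    by_contra h
    have h1 : lam α ≤ 0 := not_lt.1 h
    have h2 : (f.natDegree : ℝ) * lam α ≤ 0 := mul_nonpos_of_nonneg_of_nonpos hn0'.le h1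
    have h3 : 0 < (finrank ℚ L : ℝ) * Real.log (f.map (Int.castRingHom ℂ)).mahlerMeasure := by
      positivity
    linarith
  have hone : lam (1 : L) = 0 := by
    rw [lam]
    simp
  have hα0 : α ≠ 0 := by
    rintro rfl
    rw [lam] at hlam
    simp at hlam
  have hroot : ∀ n : ℕ, 0 < n → α ^ n ≠ 1 := by
    intro n hn h
    have h1 := lam_pow α n
    rw [h, hone] at h1
    have : 0 < (n : ℝ) * lam α := by
      have : (0 : ℝ) < n := by exact_mod_cast hn
      positivity
    linarith
  have hRInj : RInj K α := RInj_of_top hα3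
  have hDR : (0 : ℝ) < finrank K L := by
    rw [hα2]; exact_mod_cast hPdeg0
  have hDg : (finrank K L : ℝ) ≤ g.natDegree := by
    rw [hα2]; exact_mod_cast hPdeg
  have hgR : (0 : ℝ) < g.natDegree := hDR.trans_le hDg
  have key := hmain m hm K L α hi hα0 hroot hRInj B (by
    have := Real.log_le_log hDR hDg
    linarith) hexc
  have hh : lam α / finrank ℚ L = Real.log (f.map (Int.castRingHom ℂ)).mahlerMeasure /
      f.natDegree := by
    rw [div_eq_div_iff hd0'.ne' hn0'.ne']
    linarith
  rw [hh] at key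
  set W := Real.log B ^ (m + 2) / ((C0 * m ^ 2) ^ (m + 1) * B ^ (2 * m + 1)) with hW
  have h5 : W ≤ g.natDegree * (Real.log (f.map (Int.castRingHom ℂ)).mahlerMeasure /
      f.natDegree) := by
    refine key.trans ?_
    apply mul_le_mul_of_nonneg_right hDg
    positivity
  rw [div_mul_eq_mul_div, div_le_iff₀ hgR]
  have h6 := mul_le_mul_of_nonneg_left h5 hn0'.le
  have h7 : (f.natDegree : ℝ) * (g.natDegree *
      (Real.log (f.map (Int.castRingHom ℂ)).mahlerMeasure / f.natDegree)) =
      Real.log (f.map (Int.castRingHom ℂ)).mahlerMeasure * g.natDegree := by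
    field_simp
  rw [h7] at h6
  exact h6

lemma MM_neg' (f : ℤ[X]) : ((-f).map (Int.castRingHom ℂ)).mahlerMeasure =
    (f.map (Int.castRingHom ℂ)).mahlerMeasure := by
  have h : (-f).map (Int.castRingHom ℂ) = C (-1) * f.map (Int.castRingHom ℂ) := by simp
  rw [h, mahlerMeasure_mul, mahlerMeasure_const]
  simp

/-- for a number field -/
theorem final_local : ∃ C0 : ℝ, 7680 ≤ C0 ∧ ∀ (m : ℕ), 0 < m →
    ∀ (K : Type u) [Field K] [NumberField K],
    ∀ f : ℤ[X], Irreducible f → 1 < (f.map (Int.castRingHom ℂ)).mahlerMeasure →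
    ∀ g : K[X], g ∣ f.map (Int.castRingHom K) → 0 < g.natDegree →
    ∀ B : ℝ, C0 + m ^ 2 + Real.log g.natDegree ≤ B →
      (∀ T : Finset ℕ, (∀ p ∈ T, p.Prime ∧ (p : ℝ) ≤ C0 * m ^ 2 * B ^ 2 / Real.log B ∧
        ¬ Good K m p) → (T.card : ℝ) ≤ B) →
      (f.Monic → Real.exp (f.natDegree / g.natDegree *
        (Real.log B ^ (m + 2) / ((C0 * m ^ 2) ^ (m + 1) * B ^ (2 * m + 1)))) ≤
          (f.map (Int.castRingHom ℂ)).mahlerMeasure) ∧
      min 2 (Real.exp (f.natDegree / g.natDegree *
        (Real.log B ^ (m + 2) / ((C0 * m ^ 2) ^ (m + 1) * B ^ (2 * m + 1))))) ≤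
          (f.map (Int.castRingHom ℂ)).mahlerMeasure := by
  obtain ⟨C, hC, hmain⟩ := monic_local.{u}
  refine ⟨C, hC, ?_⟩
  intro m hm K _ _ f hf hM g hgf hg B hB hexc
  have hmon : ∀ f : ℤ[X], Irreducible f → 1 < (f.map (Int.castRingHom ℂ)).mahlerMeasure →
      g ∣ f.map (Int.castRingHom K) → f.Monic → Real.exp (f.natDegree / g.natDegree *
        (Real.log B ^ (m + 2) / ((C * m ^ 2) ^ (m + 1) * B ^ (2 * m + 1)))) ≤
          (f.map (Int.castRingHom ℂ)).mahlerMeasure := by
    intro f hf hM hgf hfm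
    rw [← Real.le_log_iff_exp_le (by linarith)]
    exact hmain m hm K f hf hfm hM g hgf hg B hB hexc
  refine ⟨hmon f hf hM hgf, ?_⟩
  rcases le_or_gt 2 (f.map (Int.castRingHom ℂ)).mahlerMeasure with h2 | h2
  · exact (min_le_left _ _).trans h2
  refine (min_le_right _ _).trans ?_
  have hlc : |f.leadingCoeff| = 1 := by
    have h3 := leadingCoeff_le_mahlerMeasure (f.map (Int.castRingHom ℂ))
    rw [Polynomial.leadingCoeff_map_of_injective (RingHom.injective_int _), eq_intCast,
      Complex.norm_intCast] at h3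
    have h4 : (|f.leadingCoeff| : ℝ) < 2 := by
      have : ((|f.leadingCoeff| : ℤ) : ℝ) = |(f.leadingCoeff : ℝ)| := by push_cast; rfl
      exact h3.trans_lt h2
    have h5 : |f.leadingCoeff| < 2 := by exact_mod_cast h4
    have h6 := Int.one_le_abs (leadingCoeff_ne_zero.mpr hf.ne_zero)
    omega
  rcases (abs_eq (zero_le_one' ℤ)).mp hlc with h3 | h3
  · exact hmon f hf hM hgf h3
  · have h4 := hmon (-f) ((Associated.irreducible_iff
      (Associated.neg_left (Associated.refl f))).mpr hf) (by rw [MM_neg']; exact hM)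
      (by rw [Polynomial.map_neg]; exact (dvd_neg).2 hgf)
      (by rw [Monic, leadingCoeff_neg, h3]; rfl)
    rwa [MM_neg', natDegree_neg] at h4

/-- from infinite Galois extensions of exponent `m` to number fields -/
lemma descend {m : ℕ} (hm : 0 < m) (E : Type u) [Field E] [CharZero E] [IsGalois ℚ E]
    (hG : ∀ σ : E ≃ₐ[ℚ] E, σ ^ m = 1) (f : ℤ[X]) (g : E[X]) (hgf : g ∣ f.map (Int.castRingHom E)) :
    ∃ (K : Type u) (_ : Field K) (_ : NumberField K) (g0 : K[X]),
      g0 ∣ f.map (Int.castRingHom K) ∧ g0.natDegree = g.natDegree ∧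
      ∀ p : ℕ, p.Prime → ¬ p ∣ m → Good K m p := by
  classical
  -- the Galois extension generated by the coefficients
  obtain ⟨K, hfd, hgal, hsub⟩ : ∃ K : IntermediateField ℚ E, FiniteDimensional ℚ K ∧
      IsGalois ℚ K ∧ (g.coeffs : Set E) ⊆ (K : Set E) :=
    ⟨(FiniteGaloisIntermediateField.adjoin ℚ (g.coeffs : Set E)).toIntermediateField,
      inferInstance, by
        have h := (FiniteGaloisIntermediateField.adjoin ℚ (g.coeffs : Set E)).isGalois
        convert h
        exact Subsingleton.elim _ _, FiniteGaloisIntermediateField.subset_adjoin ℚ _⟩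
  have hnf : NumberField K := { to_charZero := inferInstance, to_finiteDimensional := hfd }
  have hGK : ∀ σ : K ≃ₐ[ℚ] K, σ ^ m = 1 := by
    intro σ
    obtain ⟨τ, rfl⟩ := AlgEquiv.restrictNormalHom_surjective (F := ℚ) (K₁ := K) E σ
    rw [← map_pow, hG, map_one]
  obtain ⟨g0, hg0'⟩ : ∃ g0 : K[X], g0.map (algebraMap K E) = g := by
    have h1 : g ∈ Polynomial.lifts (algebraMap K E) := by
      rw [Polynomial.lifts_iff_coeff_lifts]
      intro n
      by_cases hn : g.coeff n = 0
      · rw [hn]; exact ⟨0, map_zero _⟩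
      · exact ⟨⟨g.coeff n, hsub (Polynomial.coeff_mem_coeffs hn)⟩, rfl⟩
    exact (Polynomial.mem_lifts g).1 h1
  have hdeg0 : g0.natDegree = g.natDegree := by
    rw [← hg0', natDegree_map]
  have hgf0 : g0 ∣ f.map (Int.castRingHom K) := by
    rw [← Polynomial.map_dvd_map' (algebraMap K E), hg0', Polynomial.map_map]
    convert hgf using 2
    exact RingHom.ext_int _ _
  exact ⟨K, inferInstance, hnf, g0, hgf0, hdeg0, fun p hp hpm => good_of_exponent hm hGK hp hpm⟩

end Pool.Agent.U218.LD
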