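import Mathlib
import Pool.Agent.U218.LD.Poly

/-! # The final form -/

set_option autoImplicit false
set_option linter.all false

universe u v

open Finset Polynomial Module NumberField IntermediateField

namespace Pool.Agent.U218.LD

lemma real_cor {C0 ε : ℝ} (hC0 : 7680 ≤ C0) (hε : 0 < ε) : ∃ c : ℝ, 0 < c ∧ ∃ κ : ℝ, 0 < κ ∧
    ∀ (m : ℕ) (n D : ℝ), 0 < m → 1 ≤ D → 1 ≤ n → D ≤ n ^ (1 - ε) →
      m * Real.log (Real.log (3 * n)) ≤ c * Real.log (3 * n) →
      ∀ B : ℝ, B = C0 + m ^ 2 + Real.log D →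
      κ ≤ n / D * (Real.log B ^ (m + 2) / ((C0 * m ^ 2) ^ (m + 1) * B ^ (2 * m + 1))) := by
  set K := Real.log (C0 + 2) with hK
  have hK0 : 0 ≤ K := Real.log_nonneg (by linarith)
  set c : ℝ := min (1 / 20) (ε / (2 * (60 * K + 6))) with hc
  have hc0 : 0 < c := by positivity
  have hc1 : c ≤ 1 / 20 := min_le_left _ _
  have hc2 : c * (60 * K + 6) ≤ ε / 2 := by
    have h1 : c ≤ ε / (2 * (60 * K + 6)) := min_le_right _ _
    have h2 := mul_le_mul_of_nonneg_right h1 (by positivity : 0 ≤ 60 * K + 6)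
    have h3 : ε / (2 * (60 * K + 6)) * (60 * K + 6) = ε / 2 := by
      field_simp
    linarith
  refine ⟨c, hc0, Real.exp (4 + 4 * Real.log (ε / 8) - 2 * K - ε * Real.log 3),
    Real.exp_pos _, ?_⟩
  intro m n D hm hD hn hDn hmn B hB
  have hmR : (1 : ℝ) ≤ m := by exact_mod_cast hm
  set l := Real.log (3 * n) with hl
  set lam := Real.log l with hlam
  have hln : l = Real.log 3 + Real.log n := Real.log_mul (by norm_num) (by linarith)
  have hlogn : 0 ≤ Real.log n := Real.log_nonneg hn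
  have hlog3 : (1.0986 : ℝ) ≤ Real.log 3 := by
    rw [Real.le_log_iff_exp_le (by norm_num)]
    have h1 : Real.exp 1.0986 = Real.exp 1 * Real.exp 0.0986 := by
      rw [← Real.exp_add]; norm_num
    have h2 := Real.exp_one_lt_d9
    have h3 : Real.exp 0.0986 ≤ 1.10363 := by
      have := Real.exp_bound' (x := 0.0986) (by norm_num) (by norm_num) (n := 5) (by norm_num)
      refine this.trans ?_
      norm_num [Finset.sum_range_succ, Nat.factorial]
    rw [h1]
    have h4 : (0 : ℝ) < Real.exp 0.0986 := Real.exp_pos _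
    nlinarith
  have hl1 : 1.0986 ≤ l := by linarith
  have hlam0 : (1 / 20 : ℝ) ≤ lam := by
    have h1 : 1 - l⁻¹ ≤ Real.log l := Real.one_sub_inv_le_log_of_pos (by linarith)
    have h2 : l⁻¹ ≤ (1.0986 : ℝ)⁻¹ := inv_anti₀ (by norm_num) hl1
    have h3 : (1.0986 : ℝ)⁻¹ ≤ 0.95 := by norm_num
    linarith
  have hm20 : (m : ℝ) ≤ 20 * c * l := by
    have h1 : (m : ℝ) * (1 / 20) ≤ m * lam := mul_le_mul_of_nonneg_left hlam0 (by linarith)
    linarith
  have hml : (m : ℝ) ≤ l := by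
    have : 20 * c * l ≤ 1 * l := mul_le_mul_of_nonneg_right (by linarith) (by linarith)
    linarith
  have hDlog : Real.log D ≤ l := by
    have h1 : D ≤ 3 * n := by
      refine hDn.trans ?_
      have h2 : n ^ (1 - ε) ≤ n ^ (1 : ℝ) := Real.rpow_le_rpow_of_exponent_le hn (by linarith)
      rw [Real.rpow_one] at h2
      linarith
    exact Real.log_le_log (by linarith) h1
  have hDlog0 : 0 ≤ Real.log D := Real.log_nonneg hD
  have hBge : C0 ≤ B := by
    rw [hB]; nlinarith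
  have hlC : l ≤ l ^ 2 := by nlinarith
  have hBle : B ≤ (C0 + 2) * l ^ 2 := by
    have h1 : (m : ℝ) ^ 2 ≤ l ^ 2 := pow_le_pow_left₀ (by linarith) hml 2
    have h2 : C0 * 1 ≤ C0 * l ^ 2 := mul_le_mul_of_nonneg_left (by nlinarith) (by linarith)
    rw [hB]
    nlinarith
  have hlogB : 1 ≤ Real.log B := by
    rw [Real.le_log_iff_exp_le (by linarith)]
    have := Real.exp_one_lt_d9
    linarith
  have hB0 : 0 < B := by linarith
  set V := (C0 + 2) * l ^ 2 with hV
  have hV1 : 1 ≤ V := by nlinarith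
  have hCm : C0 * (m : ℝ) ^ 2 ≤ V := by
    have h1 : (m : ℝ) ^ 2 ≤ l ^ 2 := pow_le_pow_left₀ (by linarith) hml 2
    rw [hV]
    nlinarith
  have hden : (C0 * m ^ 2) ^ (m + 1) * B ^ (2 * m + 1) ≤ V ^ (3 * m + 2) := by
    have e : V ^ (3 * m + 2) = V ^ (m + 1) * V ^ (2 * m + 1) := by rw [← pow_add]; congr 1; ring
    rw [e]
    exact mul_le_mul (pow_le_pow_left₀ (by positivity) hCm _) (pow_le_pow_left₀ hB0.le hBle _)
      (by positivity) (by positivity)
  have hC00 : 0 < C0 := by linarith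
  have hW : 1 / V ^ (3 * m + 2) ≤
      Real.log B ^ (m + 2) / ((C0 * m ^ 2) ^ (m + 1) * B ^ (2 * m + 1)) :=
    div_le_div₀ (by positivity) (one_le_pow₀ hlogB) (by positivity) hden
  have hnD : n ^ ε ≤ n / D := by
    rw [le_div_iff₀ (by linarith)]
    calc n ^ ε * D ≤ n ^ ε * n ^ (1 - ε) := mul_le_mul_of_nonneg_left hDn (by positivity)
      _ = n := by
        rw [← Real.rpow_add (by linarith)]
        simp
  have hlow : n ^ ε * (1 / V ^ (3 * m + 2)) ≤
      n / D * (Real.log B ^ (m + 2) / ((C0 * m ^ 2) ^ (m + 1) * B ^ (2 * m + 1))) :=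
    mul_le_mul hnD hW (by positivity) (by positivity)
  refine le_trans ?_ hlow
  have hlogV : Real.log V = K + 2 * lam := by
    rw [hV, Real.log_mul (by linarith) (by positivity), Real.log_pow]
    push_cast
    ring
  have e1 : n ^ ε * (1 / V ^ (3 * m + 2)) =
      Real.exp (ε * Real.log n - (3 * m + 2) * (K + 2 * lam)) := by
    rw [Real.exp_sub, Real.rpow_def_of_pos (by linarith), mul_comm (Real.log n) ε, ← hlogV]
    have : Real.exp ((3 * (m : ℝ) + 2) * Real.log V) = V ^ (3 * m + 2) := by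
      have h1 : ((3 * (m : ℝ) + 2)) = ((3 * m + 2 : ℕ) : ℝ) := by push_cast; ring
      rw [h1, ← Real.log_pow, Real.exp_log (by positivity)]
    rw [this]
    ring
  rw [e1]
  apply Real.exp_le_exp.mpr
  -- the final estimate
  have h4 : 4 * lam ≤ ε / 2 * l - 4 - 4 * Real.log (ε / 8) := by
    have h1 := Real.log_le_sub_one_of_pos (show 0 < ε / 8 * l by positivity)
    rw [Real.log_mul (by positivity) (by linarith)] at h1
    linarith
  have h5 : (3 * (m : ℝ) + 2) * (K + 2 * lam) = 3 * m * K + 6 * (m * lam) + 2 * K + 4 * lam := by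
    ring
  have h6 : 3 * (m : ℝ) * K ≤ 60 * K * (c * l) := by
    have := mul_le_mul_of_nonneg_right hm20 (by positivity : 0 ≤ 3 * K)
    linarith
  have h7 : 6 * ((m : ℝ) * lam) ≤ 6 * (c * l) := by linarith
  have h8 : 60 * K * (c * l) + 6 * (c * l) ≤ ε / 2 * l := by
    have := mul_le_mul_of_nonneg_right hc2 (by linarith : 0 ≤ l)
    linarith
  have h9 : ε * Real.log n = ε * l - ε * Real.log 3 := by rw [hln]; ring
  rw [h5, h9]
  linarith

lemma card_dvd {m : ℕ} (hm : 0 < m) (T : Finset ℕ) (hT : ∀ p ∈ T, p ∣ m) : T.card ≤ m := by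
  have h1 : T ⊆ Finset.Icc 1 m := by
    intro p hp
    rw [Finset.mem_Icc]
    exact ⟨Nat.pos_of_dvd_of_pos (hT p hp) hm, Nat.le_of_dvd hm (hT p hp)⟩
  have h2 := Finset.card_le_card h1
  rwa [Nat.card_Icc, Nat.add_sub_cancel] at h2

/-- the theorem: a local version for number fields, and the version for Galois extensions of
exponent `m`, with the same constant -/
theorem final : ∃ C0 : ℝ, 7680 ≤ C0 ∧ ∀ m : ℕ, 0 < m →
    ∀ f : ℤ[X], Irreducible f → 1 < (f.map (Int.castRingHom ℂ)).mahlerMeasure →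
    (∀ (K : Type u) [Field K] [NumberField K],
      ∀ g : K[X], g ∣ f.map (Int.castRingHom K) → 0 < g.natDegree →
      ∀ B : ℝ, C0 + m ^ 2 + Real.log g.natDegree ≤ B →
      (∀ T : Finset ℕ, (∀ p ∈ T, p.Prime ∧ (p : ℝ) ≤ C0 * m ^ 2 * B ^ 2 / Real.log B ∧
        ¬ Good K m p) → (T.card : ℝ) ≤ B) →
      (f.Monic → Real.exp (f.natDegree / g.natDegree *
        (Real.log B ^ (m + 2) / ((C0 * m ^ 2) ^ (m + 1) * B ^ (2 * m + 1)))) ≤
          (f.map (Int.castRingHom ℂ)).mahlerMeasure) ∧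
      min 2 (Real.exp (f.natDegree / g.natDegree *
        (Real.log B ^ (m + 2) / ((C0 * m ^ 2) ^ (m + 1) * B ^ (2 * m + 1))))) ≤
          (f.map (Int.castRingHom ℂ)).mahlerMeasure) ∧
    (∀ (E : Type u) [Field E] [CharZero E] [IsGalois ℚ E], (∀ σ : E ≃ₐ[ℚ] E, σ ^ m = 1) →
      ∀ g : E[X], g ∣ f.map (Int.castRingHom E) → 0 < g.natDegree →
      ∀ B : ℝ, C0 + m ^ 2 + Real.log g.natDegree ≤ B →
      (f.Monic → Real.exp (f.natDegree / g.natDegree *
        (Real.log B ^ (m + 2) / ((C0 * m ^ 2) ^ (m + 1) * B ^ (2 * m + 1)))) ≤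
          (f.map (Int.castRingHom ℂ)).mahlerMeasure) ∧
      min 2 (Real.exp (f.natDegree / g.natDegree *
        (Real.log B ^ (m + 2) / ((C0 * m ^ 2) ^ (m + 1) * B ^ (2 * m + 1))))) ≤
          (f.map (Int.castRingHom ℂ)).mahlerMeasure) := by
  obtain ⟨C, hC, hmain⟩ := final_local.{u}
  refine ⟨C, hC, ?_⟩
  intro m hm f hf hM
  refine ⟨fun K _ _ g hgf hg B hB hexc => hmain m hm K f hf hM g hgf hg B hB hexc, ?_⟩
  intro E _ _ _ hG g hgf hg B hB
  obtain ⟨K, hK1, hK2, g0, hg0, hdeg, hgood⟩ := descend hm E hG f g hgf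
  have hmR : (1 : ℝ) ≤ m := by exact_mod_cast hm
  have h1 := hmain m hm K f hf hM g0 hg0 (by rw [hdeg]; exact hg) B (by rw [hdeg]; exact hB) (by
    intro T hT
    have h2 : T.card ≤ m := by
      apply card_dvd hm
      intro p hp
      by_contra h3
      exact (hT p hp).2.2 (hgood p (hT p hp).1 h3)
    have h3 : (T.card : ℝ) ≤ m := by exact_mod_cast h2
    have h4 : 0 ≤ Real.log g.natDegree := Real.log_nonneg (by exact_mod_cast hg)
    nlinarith)
  rw [hdeg] at h1
  exact h1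

/-- Lehmer's inequality for polynomials of degree `n` with a factor of degree at most `n ^ (1 - ε)`
over a Galois extension of exponent at most `c log n / log log n` -/
theorem power_saving (ε : ℝ) (hε : 0 < ε) : ∃ c : ℝ, 0 < c ∧ ∃ μ : ℝ, 1 < μ ∧ ∀ m : ℕ, 0 < m →
    ∀ f : ℤ[X], Irreducible f → 1 < (f.map (Int.castRingHom ℂ)).mahlerMeasure →
    m * Real.log (Real.log (3 * f.natDegree)) ≤ c * Real.log (3 * f.natDegree) →
    ∀ (E : Type u) [Field E] [CharZero E] [IsGalois ℚ E], (∀ σ : E ≃ₐ[ℚ] E, σ ^ m = 1) →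
    ∀ g : E[X], g ∣ f.map (Int.castRingHom E) → 0 < g.natDegree →
      (g.natDegree : ℝ) ≤ (f.natDegree : ℝ) ^ (1 - ε) →
      μ ≤ (f.map (Int.castRingHom ℂ)).mahlerMeasure := by
  obtain ⟨C, hC, hfin⟩ := final.{u}
  obtain ⟨c, hc, κ, hκ, h⟩ := real_cor hC hε
  refine ⟨c, hc, min 2 (Real.exp κ), lt_min (by norm_num) (Real.one_lt_exp_iff.mpr hκ), ?_⟩
  intro m hm f hf hM hmn E _ _ _ hG g hgf hg hgn
  have hn : 1 ≤ f.natDegree := by
    have h1 := natDegree_le_of_dvd hgf ((Polynomial.map_ne_zero_iff (RingHom.injective_int _)).mpr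
      hf.ne_zero)
    rw [natDegree_map_eq_of_injective (RingHom.injective_int _)] at h1
    omega
  have h1 := h m f.natDegree g.natDegree hm (by exact_mod_cast hg) (by exact_mod_cast hn) hgn hmn
    _ rfl
  refine le_trans ?_ ((hfin m hm f hf hM).2 E hG g hgf hg _ le_rfl).2
  exact min_le_min_left 2 (Real.exp_le_exp.mpr h1)

end Pool.Agent.U218.LD
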